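import Pool.Agent.Lib.MP_12a5fd_co.BT.Main

/-! Degree sums of hubs of a tree, and the packing theorem with a condition on class sizes. -/

set_option autoImplicit false

namespace Pool.Agent.Lib.MP_12a5fd_co

open Finset

/-- the degrees on one class of a tree add up to the number of edges -/
theorem sum_deg_class {V : Type} [Fintype V] [DecidableEq V] (T : SimpleGraph V) (hT : T.IsTree)
    (A : Finset V) (hA : ∀ x y, T.Adj x y → (x ∈ A ↔ y ∉ A)) :
    ∑ x ∈ A, (T.neighborSet x).ncard + 1 = Fintype.card V := by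
  classical
  have hb : T.IsBipartiteWith (A : Set V) ((Aᶜ : Finset V) : Set V) :=
    ⟨by rw [coe_compl]; exact disjoint_compl_right, fun v w h => by
      have := hA v w h
      by_cases hv : v ∈ A
      · exact Or.inl ⟨hv, by simpa using this.1 hv⟩
      · refine Or.inr ⟨by simpa using hv, ?_⟩
        by_contra hw
        exact hv (this.2 hw)⟩
  rw [← hT.card_edgeFinset, ← SimpleGraph.isBipartiteWith_sum_degrees_eq_card_edges hb]
  congr 1
  refine sum_congr rfl fun x _ => ?_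
  rw [← SimpleGraph.card_neighborSet_eq_degree, ← Nat.card_coe_set_eq,
    Nat.card_eq_fintype_card]

/-- the degrees on a part `H` of one class are bounded by the other class and `H` -/
theorem sum_deg_hub {V : Type} [Fintype V] [DecidableEq V] (T : SimpleGraph V) (hT : T.IsTree)
    (A : Finset V) (hA : ∀ x y, T.Adj x y → (x ∈ A ↔ y ∉ A)) (H : Finset V) (hH : H ⊆ A) :
    ∑ x ∈ H, (T.neighborSet x).ncard ≤ #Aᶜ + #H := by
  classical
  have h1 := sum_deg_class T hT A hA
  rw [← sum_sdiff hH] at h1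
  have h2 := card_sdiff_add_card_eq_card hH
  have h3 := card_add_card_compl A
  by_cases hV : Nontrivial V
  · have h4 : #(A \ H) ≤ ∑ x ∈ A \ H, (T.neighborSet x).ncard := by
      rw [card_eq_sum_ones]
      refine sum_le_sum fun x _ => ?_
      obtain ⟨y, hy⟩ := hT.connected.preconnected.exists_adj_of_nontrivial x
      exact (Set.ncard_pos (Set.toFinite _)).2 ⟨y, hy⟩
    omega
  · have h4 : Fintype.card V ≤ 1 := Fintype.card_le_one_iff_subsingleton.2
      (not_nontrivial_iff_subsingleton.1 hV)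
    omega

/-- `pack2` with a condition on the size of the column class instead of the degrees -/
theorem pack2B (ε : ℝ) (hε : 0 < ε) : ∃ k0 : ℕ, ∀ k a b : ℕ, k0 ≤ k →
    (1 + ε) * k / 2 ≤ a → (1 + ε) * k ≤ b →
    ∀ (I : Type) [Fintype I] [DecidableEq I] (n rk : I → ℕ), Function.Injective rk →
      (∀ i, n i + rk i ≤ k) → ∀ T : (i : I) → SimpleGraph (Fin (n i)), (∀ i, (T i).IsTree) →
      ∀ A : (i : I) → Finset (Fin (n i)), (∀ i x y, (T i).Adj x y → (x ∈ A i ↔ y ∉ A i)) →
      (∀ i, 2 * #(A i) ≤ n i) → ∀ α : I → ℝ, (∀ i, 0 ≤ α i) →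
      (∀ i, (#(A i)ᶜ : ℝ) ≤ α i * n i + 1) →
      ∀ π : I → I, (∀ i, π (π i) = i) → (∀ i j, π i = i → π j = j → i = j) →
      (∀ i, π i ≠ i → α i + α (π i) ≤ 1) →
      ∃ f : (i : I) → Fin (n i) → Fin a ⊕ Fin b, (∀ i, Function.Injective (f i)) ∧
        (∀ i x, (f i x).isLeft = decide (x ∈ A i)) ∧
        ∀ i j x y z t, (T i).Adj x y → (T j).Adj z t → s(f i x, f i y) = s(f j z, f j t) →
          i = j := by
  obtain ⟨γ, hγ, k0, h⟩ := BT.pack2 ε hε
  obtain ⟨k1, hk1⟩ := exists_nat_ge ((1 / γ + 1) / γ)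
  refine ⟨max (max k0 k1) 1, fun k a b hk ha hb I _ _ n rk hrk hn T hT A hA hA2 α hα0 hα π hπ hfix
    hp => h k a b (by omega) ha hb I n rk hrk hn T hT A hA hA2 α hα0 (fun i => ?_) π hπ hfix hp⟩
  have hk0 : (0 : ℝ) < k := by exact_mod_cast (by omega : 0 < k)
  have hk2 : 1 / γ + 1 ≤ γ * k := by
    rw [div_le_iff₀ hγ] at hk1
    have : (k1 : ℝ) ≤ k := by exact_mod_cast (by omega : k1 ≤ k)
    nlinarith
  set H := ({x ∈ A i | γ * k < ((T i).neighborSet x).ncard} : Finset (Fin (n i))) with hH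
  have h1 := sum_deg_hub (T i) (hT i) (A i) (hA i) H (filter_subset _ _)
  have h2 := sum_deg_class (T i) (hT i) (A i) (hA i)
  have h3 : ∑ x ∈ H, ((T i).neighborSet x).ncard ≤ k := by
    have : ∑ x ∈ H, ((T i).neighborSet x).ncard ≤ ∑ x ∈ A i, ((T i).neighborSet x).ncard :=
      sum_le_sum_of_subset (filter_subset _ _)
    have h4 := hn i
    rw [Fintype.card_fin] at h2
    omega
  have h4 : (#H : ℝ) * (γ * k) ≤ k := by
    refine le_trans ?_ (Nat.cast_le.2 h3)
    rw [Nat.cast_sum, ← nsmul_eq_mul]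
    exact card_nsmul_le_sum _ _ _ fun x hx => (mem_filter.1 hx).2.le
  have h5 : (#H : ℝ) ≤ 1 / γ := by
    rw [le_div_iff₀ hγ]
    refine le_of_mul_le_mul_right ?_ hk0
    linarith [mul_assoc (#H : ℝ) γ k]
  have h6 : ((∑ x ∈ H, ((T i).neighborSet x).ncard : ℕ) : ℝ) ≤ #(A i)ᶜ + #H := by
    exact_mod_cast h1
  linarith [hα i]

end Pool.Agent.Lib.MP_12a5fd_co
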