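import Mathlib
import Pool.Agent.Lib.MP_12a5fd_co.BT.Main

/-! Packing bundles of trees: several trees are joined to one tree and share one slot. -/

set_option autoImplicit false

namespace Pool.Agent.Lib.MP_12a5fd_co.Bundle

open Finset SimpleGraph

lemma deg_sum {N : ℕ} (T : SimpleGraph (Fin N)) (hT : T.IsTree) (A : Finset (Fin N))
    (hA : ∀ x y, T.Adj x y → (x ∈ A ↔ y ∉ A)) : ∑ x ∈ A, (T.neighborSet x).ncard ≤ N := by
  classical
  have hb : T.IsBipartiteWith (A : Set (Fin N)) ((Aᶜ : Finset (Fin N)) : Set (Fin N)) := by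
    refine ⟨disjoint_coe.2 disjoint_compl_right, fun v w h => ?_⟩
    have := hA v w h
    by_cases hv : v ∈ A
    · exact Or.inl ⟨by simpa using hv, by simpa using this.1 hv⟩
    · refine Or.inr ⟨by simpa using hv, ?_⟩
      by_contra hw
      exact hv (this.2 (by simpa using hw))
  have h1 := isBipartiteWith_sum_degrees_eq_card_edges hb
  have h2 := hT.card_edgeFinset
  have h3 : ∑ x ∈ A, (T.neighborSet x).ncard = ∑ x ∈ A, T.degree x :=
    sum_congr rfl fun x _ => by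
      rw [← card_neighborFinset_eq_degree, ← Set.ncard_coe_finset, coe_neighborFinset]
  rw [Fintype.card_fin] at h2
  omega

lemma ext_tree {W : Type} (H : SimpleGraph W) (hH : H.IsAcyclic) (s : W → Prop)
    (hs : ∀ u v, H.Adj u v → (s u ↔ ¬ s v)) (h1 : ∃ v, s v) (h2 : ∃ v, ¬ s v) :
    ∃ T : SimpleGraph W, H ≤ T ∧ T.IsTree ∧ ∀ u v, T.Adj u v → (s u ↔ ¬ s v) := by
  let K : SimpleGraph W :=
    { Adj := fun u v => (s u ↔ ¬ s v)
      symm := ⟨fun u v h => by tauto⟩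
      loopless := ⟨fun u h => by tauto⟩ }
  obtain ⟨p, hp⟩ := h1
  obtain ⟨q, hq⟩ := h2
  have r : ∀ u, K.Reachable u p := fun u => by
    by_cases hu : s u
    · exact (Adj.reachable (show K.Adj u q from by simp [K, hu, hq])).trans
        (Adj.reachable (show K.Adj q p from by simp [K, hp, hq]))
    · exact Adj.reachable (show K.Adj u p from by simp [K, hu, hp])
  have : Nonempty W := ⟨p⟩
  have hK : K.Connected := ⟨fun u v => (r u).trans (r v).symm⟩
  obtain ⟨T, t1, t2, t3⟩ := hK.exists_isTree_le_of_le_of_isAcyclic (fun u v h => hs u v h) hH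
  exact ⟨T, t1, t3, fun u v h => t2 h⟩

theorem pack_acyclic (ε : ℝ) (hε : 0 < ε) : ∃ γ : ℝ, 0 < γ ∧ ∃ k0 : ℕ, ∀ k a b : ℕ, k0 ≤ k →
    (1 + ε) * k / 2 ≤ a → (1 + ε) * k ≤ b →
    ∀ (V J : Type) [Fintype V] [Fintype J] [DecidableEq J] (G : SimpleGraph V), G.IsAcyclic →
    ∀ (tr : V → J) (s : V → Prop) [DecidablePred s], (∀ u v, G.Adj u v → tr u = tr v) →
      (∀ u v, G.Adj u v → (s u ↔ ¬ s v)) → ∀ rk : J → ℕ, Function.Injective rk →
      (∀ j, #{v | tr v = j} + rk j ≤ k) → (∀ j, ∃ v, tr v = j ∧ s v) →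
      (∀ j, ∃ v, tr v = j ∧ ¬ s v) → (∀ j, 2 * #{v | tr v = j ∧ s v} ≤ #{v | tr v = j}) →
      ∀ α : J → ℝ, (∀ j, 0 ≤ α j) →
      (∀ j, (#{v | tr v = j} : ℝ) ≤ α j * #{v | tr v = j} + γ * k) →
      ∀ π : J → J, (∀ j, π (π j) = j) → (∀ j, π j ≠ j) → (∀ j, α j + α (π j) ≤ 1) →
      ∃ f : V → Fin a ⊕ Fin b, (∀ u v, tr u = tr v → f u = f v → u = v) ∧
        (∀ v, (f v).isLeft = decide (s v)) ∧
        ∀ u v z t, G.Adj u v → G.Adj z t → s(f u, f v) = s(f z, f t) → tr u = tr z := by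
  obtain ⟨γ, hγ, k0, h⟩ := BT.pack2 ε hε
  refine ⟨γ, hγ, k0, fun k a b hk ha hb V J _ _ _ G hG tr s _ htr hs rk hrk hn h1 h2 hA α hα0 hα
    π hπ hfix hp => ?_⟩
  classical
  let n : J → ℕ := fun j => #{v | tr v = j}
  have e : ∀ j, Fin (n j) ≃ {v // tr v = j} := fun j =>
    (Fintype.equivFinOfCardEq (Fintype.card_subtype _)).symm
  have ex : ∀ j, ∃ T : SimpleGraph (Fin (n j)), G.comap (fun x => (e j x).1) ≤ T ∧ T.IsTree ∧
      ∀ x y, T.Adj x y → (s (e j x).1 ↔ ¬ s (e j y).1) := fun j => by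
    refine ext_tree _ ?_ _ (fun x y hxy => hs _ _ hxy) ?_ ?_
    · exact IsAcyclic.comap (Hom.comap (fun x => (e j x).1) G)
        (Subtype.val_injective.comp (e j).injective) hG
    · obtain ⟨v, hv, hv'⟩ := h1 j
      exact ⟨(e j).symm ⟨v, hv⟩, by simpa using hv'⟩
    · obtain ⟨v, hv, hv'⟩ := h2 j
      exact ⟨(e j).symm ⟨v, hv⟩, by simpa using hv'⟩
  choose T T1 T2 T3 using ex
  let A : ∀ j, Finset (Fin (n j)) := fun j => {x | s (e j x).1}
  have hAT : ∀ j x y, (T j).Adj x y → (x ∈ A j ↔ y ∉ A j) := fun j x y hxy => by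
    simpa [A] using T3 j x y hxy
  obtain ⟨g, g1, g2, g3⟩ := h k a b hk ha hb J n rk hrk hn T T2 A hAT
    (fun j => le_trans (Nat.mul_le_mul_left _ (card_le_card_of_injOn (fun x => (e j x).1)
      (fun x hx => by simpa [A, (e j x).2] using hx)
      fun x _ y _ hxy => (e j).injective (Subtype.ext hxy))) (hA j))
    α hα0 (fun j => le_trans (Nat.cast_le.2 ((sum_le_sum_of_subset (filter_subset _ _)).trans
      (deg_sum (T j) (T2 j) (A j) (hAT j)))) (hα j))
    π hπ (fun i j hi _ => absurd hi (hfix i)) (fun j _ => hp j)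
  let f : V → Fin a ⊕ Fin b := fun v => g (tr v) ((e (tr v)).symm ⟨v, rfl⟩)
  have hf : ∀ j v (hv : tr v = j), f v = g j ((e j).symm ⟨v, hv⟩) := by
    rintro j v rfl
    rfl
  have adj : ∀ j u v (hu : tr u = j) (hv : tr v = j), G.Adj u v →
      (T j).Adj ((e j).symm ⟨u, hu⟩) ((e j).symm ⟨v, hv⟩) := fun j u v hu hv huv =>
    T1 j (by simpa using huv)
  refine ⟨f, fun u v huv hf' => ?_, fun v => ?_, fun u v z t h1 h2 he => ?_⟩
  · rw [hf (tr v) u huv, hf (tr v) v rfl] at hf'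
    exact congrArg Subtype.val ((e _).symm.injective (g1 _ hf'))
  · rw [hf _ v rfl, g2]
    simp [A]
  · rw [hf (tr u) u rfl, hf (tr u) v (htr u v h1).symm, hf (tr z) z rfl,
      hf (tr z) t (htr z t h2).symm] at he
    exact g3 _ _ _ _ _ _ (adj _ _ _ _ _ h1) (adj _ _ _ _ _ h2) he

/-- The disjoint union of the trees, with extra isolated vertices. -/
def uni {I X : Type} {n : I → ℕ} (T : ∀ i, SimpleGraph (Fin (n i))) :
    SimpleGraph ((Σ i, Fin (n i)) ⊕ X) where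
  Adj u v := ∃ i x y, u = Sum.inl ⟨i, x⟩ ∧ v = Sum.inl ⟨i, y⟩ ∧ (T i).Adj x y
  symm := ⟨by
    rintro u v ⟨i, x, y, h1, h2, h3⟩
    exact ⟨i, y, x, h2, h1, h3.symm⟩⟩
  loopless := ⟨by
    rintro u ⟨i, x, y, h1, h2, h3⟩
    have : x = y := by simpa using h1.symm.trans h2
    exact h3.ne this⟩

lemma uni_acyclic {I X : Type} {n : I → ℕ} (T : ∀ i, SimpleGraph (Fin (n i)))
    (hT : ∀ i, (T i).IsAcyclic) : (uni (X := X) T).IsAcyclic := by
  rw [isAcyclic_iff_forall_adj_isBridge]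
  rintro u v ⟨i, x, y, rfl, rfl, hxy⟩
  have hb := isAcyclic_iff_forall_adj_isBridge.1 (hT i) hxy
  rw [isBridge_iff] at hb ⊢
  intro hr
  apply hb
  rw [reachable_iff_reflTransGen] at hr
  have key : ∀ w, Relation.ReflTransGen ((uni (X := X) T).deleteEdges
      {s(Sum.inl ⟨i, x⟩, Sum.inl ⟨i, y⟩)}).Adj (Sum.inl ⟨i, x⟩) w →
      ∃ z, w = Sum.inl ⟨i, z⟩ ∧ ((T i).deleteEdges {s(x, y)}).Reachable x z := by
    intro w hw
    induction hw with
    | refl => exact ⟨x, rfl, Reachable.refl _⟩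
    | tail _ hbc ih =>
      obtain ⟨z, rfl, hz⟩ := ih
      rw [deleteEdges_adj] at hbc
      obtain ⟨⟨j, p, q, e1, rfl, hpq⟩, hne⟩ := hbc
      obtain ⟨rfl, e2⟩ := Sigma.mk.inj (Sum.inl.inj e1)
      obtain rfl := eq_of_heq e2
      refine ⟨q, rfl, hz.trans (Adj.reachable ?_)⟩
      rw [deleteEdges_adj]
      refine ⟨hpq, fun hm => hne ?_⟩
      rw [Set.mem_singleton_iff] at hm ⊢
      rcases Sym2.eq_iff.1 hm with ⟨rfl, rfl⟩ | ⟨rfl, rfl⟩
      · rfl
      · exact Sym2.eq_swap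
  obtain ⟨z, hz, hr'⟩ := key _ hr
  obtain rfl : y = z := by simpa using hz
  exact hr'

lemma small_class {N : ℕ} (T : SimpleGraph (Fin N)) (hT : T.IsTree) :
    ∃ A : Finset (Fin N), (∀ x y, T.Adj x y → (x ∈ A ↔ y ∉ A)) ∧ 2 * #A ≤ N := by
  let c := hT.coloringTwo
  have hc : ∀ x y, T.Adj x y → (c x = 0 ↔ ¬ c y = 0) := fun x y h => by
    have := c.valid h
    revert this
    generalize c x = p
    generalize c y = q
    revert p q
    decide
  have hs := card_filter_add_card_filter_not (s := univ) (fun x => c x = 0)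
  rw [card_univ, Fintype.card_fin] at hs
  rcases le_total #{x | c x = 0} #{x | ¬ c x = 0} with h | h
  · exact ⟨univ.filter fun x => c x = 0, fun x y hxy => by simpa using hc x y hxy, by omega⟩
  · refine ⟨univ.filter fun x => ¬ c x = 0, fun x y hxy => ?_, by omega⟩
    have := hc x y hxy
    simp only [mem_filter, mem_univ, true_and]
    tauto

lemma cnt1 {I J : Type} [Fintype I] [Fintype J] [DecidableEq J] (n : I → ℕ) (β : I → J) (j : J) :
    #{v : (Σ i, Fin (n i)) ⊕ (J × Bool) | Sum.elim (fun p => β p.1) Prod.fst v = j} =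
      ∑ i with β i = j, n i + 2 := by
  rw [card_filter, Fintype.sum_sum_type, Fintype.sum_sigma, Fintype.sum_prod_type, sum_filter]
  congr 1
  · refine sum_congr rfl fun i _ => ?_
    by_cases h : β i = j <;> simp [h]
  · have : ∑ x : J, (if x = j then 1 else 0) = 1 := by
      rw [sum_ite_eq' univ j fun _ => 1, if_pos (mem_univ _)]
    simp only [Sum.elim_inr, Fintype.sum_bool, sum_add_distrib]
    exact congrArg₂ (· + ·) (by convert this) (by convert this)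

lemma cnt2 {I J : Type} [Fintype I] [Fintype J] [DecidableEq J] (n : I → ℕ) (β : I → J)
    (A : ∀ i, Finset (Fin (n i))) (j : J) :
    #{v : (Σ i, Fin (n i)) ⊕ (J × Bool) | Sum.elim (fun p => β p.1) Prod.fst v = j ∧
      Sum.elim (fun p => decide (p.2 ∈ A p.1)) Prod.snd v = true} =
      ∑ i with β i = j, #(A i) + 1 := by
  rw [card_filter, Fintype.sum_sum_type, Fintype.sum_sigma, Fintype.sum_prod_type, sum_filter]
  congr 1
  · refine sum_congr rfl fun i _ => ?_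
    by_cases h : β i = j <;> simp [h]
  · simp

/-- Trees pack as soon as their orders fit into bins of capacities `k - 2 - j`, `j < h`. -/
theorem pack_bins (ε : ℝ) (hε : 0 < ε) : ∃ k0 : ℕ, ∀ k a b h : ℕ, k0 ≤ k →
    (1 + ε) * k / 2 ≤ a → (1 + ε) * k ≤ b → 2 * h + 2 ≤ k →
    ∀ (I : Type) [Fintype I] (n : I → ℕ) (T : ∀ i, SimpleGraph (Fin (n i))),
      (∀ i, (T i).IsTree) → ∀ bin : I → ℕ, (∀ i, bin i < h) →
      (∀ j, j < h → ∑ i with bin i = j, n i + 2 + j ≤ k) →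
      ∃ f : ∀ i, Fin (n i) → Fin a ⊕ Fin b, (∀ i, Function.Injective (f i)) ∧
        (∀ i x y, (T i).Adj x y →
          (completeBipartiteGraph (Fin a) (Fin b)).Adj (f i x) (f i y)) ∧
        ∀ i j, i ≠ j → ∀ x y z t, (T i).Adj x y → (T j).Adj z t →
          s(f i x, f i y) ≠ s(f j z, f j t) := by
  obtain ⟨γ, hγ, k0, H⟩ := pack_acyclic ε hε
  refine ⟨max k0 ⌈2 / γ⌉₊, fun k a b h hk ha hb hh I _ n T hT bin hbin hcap => ?_⟩
  have hγk : 2 ≤ γ * k := by
    have h1 : 2 / γ ≤ k := (Nat.le_ceil _).trans (Nat.cast_le.2 (le_of_max_le_right hk))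
    rwa [div_le_iff₀ hγ, mul_comm] at h1
  choose A hA hA2 using fun i => small_class (T i) (hT i)
  let β : I → Fin h × Bool := fun i => (⟨bin i, hbin i⟩, true)
  have hfalse : ∀ j : Fin h, ∑ i with β i = (j, false), n i = 0 := fun j =>
    sum_eq_zero fun i hi => by simp [β] at hi
  have htrue : ∀ j : Fin h, ∑ i with β i = (j, true), n i = ∑ i with bin i = j.1, n i := fun j =>
    sum_congr (filter_congr fun i _ => by simp [β, Fin.ext_iff]) fun _ _ => rfl
  obtain ⟨f, f1, f2, f3⟩ := H k a b (le_of_max_le_left hk) ha hb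
    ((Σ i, Fin (n i)) ⊕ ((Fin h × Bool) × Bool)) (Fin h × Bool) (uni T)
    (uni_acyclic T fun i => (hT i).isAcyclic) (Sum.elim (fun p => β p.1) Prod.fst)
    (fun v => Sum.elim (fun p => decide (p.2 ∈ A p.1)) Prod.snd v = true)
    (by
      rintro u v ⟨i, x, y, rfl, rfl, -⟩
      rfl)
    (by
      rintro u v ⟨i, x, y, rfl, rfl, hxy⟩
      simpa using hA i x y hxy)
    (fun j => if j.2 = true then j.1.1 else h + j.1.1)
    (by
      rintro ⟨i, c⟩ ⟨j, d⟩ e
      have := i.2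
      have := j.2
      cases c <;> cases d <;> simp at e ⊢ <;> omega)
    (by
      rintro ⟨j, c⟩
      have := j.2
      rw [cnt1]
      cases c
      · rw [hfalse]
        simp only [Bool.false_eq_true, if_false]
        omega
      · rw [htrue]
        exact hcap j j.2)
    (fun j => ⟨Sum.inr (j, true), rfl, rfl⟩) (fun j => ⟨Sum.inr (j, false), rfl, by simp⟩)
    (fun j => by
      rw [cnt1, cnt2, mul_add, mul_sum]
      exact Nat.add_le_add_right (sum_le_sum fun i _ => hA2 i) _)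
    (fun j => if j.2 = true then 1 else 0) (fun j => by split_ifs <;> norm_num)
    (by
      rintro ⟨j, c⟩
      rw [cnt1]
      cases c
      · rw [hfalse]
        simpa using hγk
      · simp only [if_true, one_mul]
        linarith)
    (fun j => (j.1, !j.2)) (fun j => by simp) (fun j e => by simpa using congrArg Prod.snd e)
    (by
      rintro ⟨j, c⟩
      cases c <;> simp)
  refine ⟨fun i x => f (Sum.inl ⟨i, x⟩), fun i x y e => ?_, fun i x y hxy => ?_,
    fun i j hij x y z t h1 h2 e => ?_⟩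
  · simpa using f1 (Sum.inl ⟨i, x⟩) (Sum.inl ⟨i, y⟩) rfl e
  · have e1 := f2 (Sum.inl ⟨i, x⟩)
    have e2 := f2 (Sum.inl ⟨i, y⟩)
    have e3 := hA i x y hxy
    simp only [Sum.elim_inl, decide_eq_true_eq] at e1 e2
    by_cases hy : y ∈ A i
    · have hx : x ∉ A i := fun hx => e3.1 hx hy
      rw [decide_eq_false hx] at e1
      rw [decide_eq_true hy] at e2
      exact Or.inr ⟨by simpa using e1, e2⟩
    · rw [decide_eq_true (e3.2 hy)] at e1
      rw [decide_eq_false hy] at e2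
      exact Or.inl ⟨e1, by simpa using e2⟩
  · have ht := f3 _ _ _ _ ⟨i, x, y, rfl, rfl, h1⟩ ⟨j, z, t, rfl, rfl, h2⟩ e
    rcases Sym2.eq_iff.1 e with ⟨e1, -⟩ | ⟨e1, -⟩
    · exact hij (congrArg Sigma.fst (Sum.inl.inj (f1 _ _ ht e1)))
    · exact hij (congrArg Sigma.fst (Sum.inl.inj (f1 _ (Sum.inl ⟨j, t⟩) ht e1)))

lemma sum_two {I : Type} (F : Finset I) (n : I → ℕ) (p : I → Prop) (B : ℕ)
    (h1 : ∀ x ∈ F, n x ≤ B) (h2 : ∀ x ∈ F, ∀ y ∈ F, x ≠ y → n x + n y ≤ B ∧ (p x ↔ ¬ p y)) :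
    ∑ x ∈ F, n x ≤ B := by
  classical
  have hc : #F ≤ 2 := by
    refine (card_le_card_of_injOn (t := (univ : Finset Bool)) (fun x => decide (p x))
      (fun _ _ => mem_coe.2 (mem_univ _)) fun x hx y hy e => ?_).trans (by simp)
    by_contra hne
    have := (h2 x hx y hy hne).2
    simp only [decide_eq_decide] at e
    tauto
  rcases Nat.lt_or_ge #F 2 with h | h
  · rcases Nat.lt_or_ge #F 1 with h0 | h0
    · rw [card_eq_zero.1 (by omega : #F = 0)]
      simp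
    · obtain ⟨x, rfl⟩ := card_eq_one.1 (by omega : #F = 1)
      simpa using h1
  · obtain ⟨x, y, hne, rfl⟩ := card_eq_two.1 (by omega : #F = 2)
    rw [sum_pair hne]
    exact (h2 x (by simp) y (by simp) hne).1

/-- The size of the bin that receives the tree of order `t`. -/
def sg (v t : ℕ) : ℕ :=
  if t ≤ 3 * v then 14 * v + 2 * t else if t ≤ 6 * v then 2 * t + 8 * v - 1
  else if t ≤ 8 * v then 2 * t + 12 * v else if t ≤ 10 * v then 2 * t + 8 * v - 1
  else if t ≤ 13 * v then 2 * t - 6 * v - 1 else if t ≤ 16 * v then 2 * t - 12 * v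
  else if t ≤ 18 * v then 2 * t - 8 * v - 1 else if t ≤ 20 * v then 2 * t - 12 * v else t

lemma sg_spec (v : ℕ) {t : ℕ} (h0 : 0 < t) :
    (t ≤ 3 * v ∧ sg v t = 14 * v + 2 * t) ∨
    (3 * v < t ∧ t ≤ 6 * v ∧ sg v t + 1 = 2 * t + 8 * v) ∨
    (6 * v < t ∧ t ≤ 8 * v ∧ sg v t = 2 * t + 12 * v) ∨
    (8 * v < t ∧ t ≤ 10 * v ∧ sg v t + 1 = 2 * t + 8 * v) ∨
    (10 * v < t ∧ t ≤ 13 * v ∧ sg v t + 6 * v + 1 = 2 * t) ∨
    (13 * v < t ∧ t ≤ 16 * v ∧ sg v t + 12 * v = 2 * t) ∨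
    (16 * v < t ∧ t ≤ 18 * v ∧ sg v t + 8 * v + 1 = 2 * t) ∨
    (18 * v < t ∧ t ≤ 20 * v ∧ sg v t + 12 * v = 2 * t) ∨ (20 * v < t ∧ sg v t = t) := by
  unfold sg
  split_ifs <;> omega

lemma sg_range {v t : ℕ} (h0 : 0 < t) (h1 : t ≤ 24 * v) :
    14 * v < sg v t ∧ sg v t ≤ 28 * v ∧ t ≤ sg v t := by
  have := sg_spec v h0
  generalize sg v t = x at this
  omega

lemma sg_pair {v t u : ℕ} (ht : 0 < t) (htu : t < u) (hu : u ≤ 24 * v) (h : sg v t = sg v u) :
    t + u ≤ sg v t + 1 ∧ t ≤ 10 * v ∧ 10 * v < u := by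
  have a := sg_spec v ht
  have b := sg_spec v (ht.trans htu)
  rw [← h] at b
  generalize sg v t = x at a b
  clear h
  rcases a with a | a | a | a | a | a | a | a | a <;>
    rcases b with b | b | b | b | b | b | b | b | b <;> omega

theorem pack_initial (c : ℝ) (hc : c < 6 / 7) : ∃ n0 : ℕ, ∀ n s : ℕ, n0 ≤ n → (s : ℝ) ≤ c * n →
    ∀ T : ∀ i : Fin s, SimpleGraph (Fin (i.val + 1)), (∀ i, (T i).IsTree) →
      ∃ f : ∀ i : Fin s, Fin (i.val + 1) → Fin ((n + 1) / 2) ⊕ Fin (n - 1),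
        (∀ i, Function.Injective (f i)) ∧
        (∀ i x y, (T i).Adj x y →
          (completeBipartiteGraph (Fin ((n + 1) / 2)) (Fin (n - 1))).Adj (f i x) (f i y)) ∧
        ∀ i j, i ≠ j → ∀ x y z t, (T i).Adj x y → (T j).Adj z t →
          s(f i x, f i y) ≠ s(f j z, f j t) := by
  obtain ⟨c', h1, h2, h3⟩ : ∃ c' : ℝ, c ≤ c' ∧ 1 / 2 ≤ c' ∧ c' < 6 / 7 :=
    ⟨max c (1 / 2), le_max_left _ _, le_max_right _ _, max_lt hc (by norm_num)⟩
  obtain ⟨δ, hδ⟩ : ∃ δ : ℝ, δ = 1 - 7 * c' / 6 := ⟨_, rfl⟩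
  have d0 : 0 < δ := by linarith
  have d1 : δ ≤ 1 := by linarith
  obtain ⟨k0, H⟩ := pack_bins δ d0
  refine ⟨max (2 * k0 + 1) ⌈63 / δ ^ 2⌉₊, fun n s hn hs T hT => ?_⟩
  have n1 : 2 * k0 + 1 ≤ n := le_of_max_le_left hn
  have n2 : 63 ≤ δ ^ 2 * n := by
    have : 63 / δ ^ 2 ≤ n := (Nat.le_ceil _).trans (Nat.cast_le.2 (le_of_max_le_right hn))
    rwa [div_le_iff₀ (by positivity), mul_comm] at this
  have n0 : (0 : ℝ) ≤ n := Nat.cast_nonneg n
  obtain ⟨v, v1, v2⟩ : ∃ v : ℕ, c' * n / 24 ≤ v ∧ (v : ℝ) ≤ c' * n / 24 + 1 :=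
    ⟨⌈c' * n / 24⌉₊, Nat.le_ceil _, (Nat.ceil_lt_add_one (by positivity)).le⟩
  have hcn : c * n ≤ c' * n := mul_le_mul_of_nonneg_right h1 n0
  have hn2 : 1 / 2 * (n : ℝ) ≤ c' * n := mul_le_mul_of_nonneg_right h2 n0
  have hsv : s ≤ 24 * v := by
    have : (s : ℝ) ≤ 24 * v := by linarith
    exact_mod_cast this
  have hk0 : k0 ≤ 28 * v + 3 := by
    have : (n : ℝ) ≤ 48 * v := by linarith
    have : n ≤ 48 * v := by exact_mod_cast this
    omega
  have hb : (1 + δ) * ((28 * v + 3 : ℕ) : ℝ) ≤ (n : ℝ) - 1 := by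
    have e : ((28 * v + 3 : ℕ) : ℝ) ≤ (1 - δ) * n + 31 := by
      push_cast
      rw [hδ]
      linarith
    have := mul_le_mul_of_nonneg_left e (by linarith : 0 ≤ 1 + δ)
    nlinarith
  have hb' : (1 + δ) * ((28 * v + 3 : ℕ) : ℝ) ≤ ((n - 1 : ℕ) : ℝ) := by
    rw [Nat.cast_sub (by omega), Nat.cast_one]
    exact hb
  have ha' : (1 + δ) * ((28 * v + 3 : ℕ) : ℝ) / 2 ≤ (((n + 1) / 2 : ℕ) : ℝ) := by
    have : (n : ℝ) ≤ 2 * (((n + 1) / 2 : ℕ) : ℝ) := by
      exact_mod_cast (by omega : n ≤ 2 * ((n + 1) / 2))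
    linarith
  have rg : ∀ i : Fin s, 14 * v < sg v (i.1 + 1) ∧ sg v (i.1 + 1) ≤ 28 * v ∧
      i.1 + 1 ≤ sg v (i.1 + 1) := fun i => sg_range (by omega) (by have := i.2; omega)
  refine H (28 * v + 3) _ _ (14 * v) hk0 ha' hb' (by omega) (Fin s) (fun i => i.1 + 1) T hT
    (fun i => 28 * v - sg v (i.1 + 1)) (fun i => by have := rg i; omega) fun j hj => ?_
  have := sum_two ({i : Fin s | 28 * v - sg v (i.1 + 1) = j} : Finset (Fin s))
    (fun i => i.1 + 1) (fun i => i.1 + 1 ≤ 10 * v) (28 * v + 1 - j)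
    (fun x hx => by
      have := rg x
      have := (mem_filter.1 hx).2
      omega)
    (fun x hx y hy hne => by
      have rx := rg x
      have ry := rg y
      have ex := (mem_filter.1 hx).2
      have ey := (mem_filter.1 hy).2
      have x2 := x.2
      have y2 := y.2
      rcases lt_or_gt_of_ne (fun e => hne (Fin.ext e) : x.1 ≠ y.1) with l | l
      · have := sg_pair (v := v) (t := x.1 + 1) (u := y.1 + 1) (by omega) (by omega) (by omega)
          (by omega)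
        omega
      · have := sg_pair (v := v) (t := y.1 + 1) (u := x.1 + 1) (by omega) (by omega) (by omega)
          (by omega)
        omega)
  omega

end Pool.Agent.Lib.MP_12a5fd_co.Bundle
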