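import Mathlib

/-! A finite certificate: how blocks of trees are bundled into blocks of slots. -/

set_option autoImplicit false

namespace Pool.Agent.Lib.MP_12a5fd_co.Cells

open Finset

/-- The slot block of the even (`false`) and odd (`true`) half of block `u`, in base `1024`. -/
def gg (u : ℕ) (e : Bool) : ℕ :=
  ((if e then 0x6b1c8671dc7d1a07b0ec84148732188c2248f2488e2009918c9b24c98288a1278a629cab254a92bcb32c86f0c0b72c01f054c331cc132ccc3341c338cf28cd2328d7068e1374d9370e40dced124ec184f03944f3ecf73fd0040cfa414354050b41107428291b91745119470244612547928488850012b4b9354d12f4e8034cce702545519494f14b5114a5495454d56541132c55f5780b089645896d5a16e5cd745dd750e57b5e9715e57f381886180c611916398f649826699c67578679a46842669d93021b1060766cdb56b8166ddbb6f9c40b1c67205b705d0749d5758286bc81761dd78ddf74de27adea7b1f17b9f27a0487e8437e2001aa0181a047ec3383a118345684e1684a1d87e1885c2f89e2688a2406e2d88e2f8da338e63c604578d6459124992e46936519225595c02010010341004a5907a6209427994310c83a0f03d9cc3f118509f05a1445f174661b4651d0791f870a6a9ca5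2a1a801b25c9f296a72b0ad2a8592f8bd318b6240d035057368de398ea0e0f23d8f80acf9409084250c4550d441124991f49d324d8564f541501485302853d5857408599610bc475a9655f1806146a0618c62d9766da268da06a4136c9ba6d9ab715c70d00e751cf7685b799e5029ed7cdf77f5fe81609830810d82a87a2005e288ba300e4118ea4190c4593a520025896a6099a5e9aa6f9ca7a9da7fa128a9b292a5a90a469fa8ea9abab2ab2b0aaea69eeafa668c0a69e9a405a1a70a0a5b9b6ada901dac423a3a5d9de81a965c9f81a9ba5fa5671171810727da1e6b2c453a0e791b84907e8598674a2e88a3e6799ea21866130a80a6cc89d28011288a2e859e6a29ae8f5728397e7d9c6879726ea6dc30e02f9767ea5677a042e44dac96e6d19054a3a69a967014a8216686a92b118eada6e7ba3090a7a992d46026858030699b01b4ccb77feab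
    else 0x75180690b8781f07a1c47f160872288322c822209115454234942581927064290a82809d268ae1b0402d0b82e4622ecbc300bf110c42e8c5324d12d4d535820360d336c41388df38ce83ace93bcee074f503c053d02314cfc3f4fe418f312cf143d0e129114585c46d1a1792048d24485294752a4b52c131304dd314e13b4f9394fd4205147044c23215150d555395956c175696058d5759d690180a5ad6c5c02a5bd720b40e5d97e5f583115876298d6259004d9465998138366659553434699a867daa01db0085a56b5b8135bd6f1c06e5bf6d1c9571cb729cc745ce75dcd765db779c278047791dc79de17a5f06b1f47d9ef7d5fc0f9f98082b7fe0782a0b8221080e158521986dc386a0f87225886298ae2a8b23110a348ca388ee3d8de3f90a3e91e4092a4c93e5094e5495802010010341004a6307a6809427990310c83a0f03d9e03f118509d45a1445f174661b4651d0791f870a5e93a2698a768d25c9f296aa2b0ad2a8592f8bd318b6240d035042368de398ea0e0f23d8f80ccf9409084250c4550d441124991f49d324d8434f541501485304853d585743e5996101c165a9655f180614210b18c62d9766da268da06a4266c9ba6d9ab715c70304d751cf76aa8799e5019ed7cdf77f5fe816098300b0b44e87a2008a288ba301d8098ea4190c1493a5200e5896a6099a5e9aa6f9ca7a9da7fa128a9b292a5a90a469fa8ea9abab2ab2b0aaea69eeafa668c0929e9a40fa1a70a0a5b9b6ada904cac435a3a5d9de81a965c9f84a9ba5fa567112c200de7da1e6b0544fa0e79214e01068598674a2e88a3e6799ea2aa2610c280a6c5e9d28006688a2e859e6a29ae8f1028397e7d9c6879726ea6ce70e0629767ea5677a046f5346c96e6d1545ea3a69a967028e8216686a92b10eeada6e7ba3090a7a995e0950edb45c54d9b0fa6048e9ceab)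 >>> (10 * u)) % 1024

/-- The balanced slot blocks. -/
def isB (z : ℕ) : Bool :=
  Nat.testBit 0x7fa7cca67ddffeed7fec3fd04400a040141014000122060882060041080a004440a0d088018211000046221009103204400c0802533040344044044110040604034208081000042112060a6030040b50600a040052016 z

lemma tab1 : ∀ u < 541, gg u false < 691 ∧ gg u true < 691 ∧
    (isB (gg u false) = true ∨ isB (gg u true) = true → gg u false = gg u true) := by
  decide +kernel

lemma tab2 : #{z ∈ range 691 | isB z = false} ≤ 508 := by decide +kernel

lemma tab3 : ∀ z < 691, ∑ u ∈ range 541, ((if gg u true = z then 2 * (u + 1) else 0) +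
    (if gg u false = z then 2 * (u + 1) + (if isB z = true then 1 else 0) else 0)) + z + 1 ≤ 1200 := by
  decide +kernel

end Pool.Agent.Lib.MP_12a5fd_co.Cells
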