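import Pool.Agent.Lib.MP_12a5fd_co.CellTab

/-! Bundling trees of orders `1, …, s` into slots: every slot holds a bounded total order, and all
slots outside a small set are balanced. -/

set_option autoImplicit false
set_option maxRecDepth 20000

namespace Pool.Agent.Lib.MP_12a5fd_co.Cells

open Finset

lemma sum_le_of_inj {α β : Type} [DecidableEq β] (A : Finset α) (B : Finset β) (κ : α → β)
    (F : α → ℕ) (G : β → ℕ) (hm : ∀ i ∈ A, κ i ∈ B) (hinj : Set.InjOn κ A)
    (h : ∀ i ∈ A, F i ≤ G (κ i)) : ∑ i ∈ A, F i ≤ ∑ j ∈ B, G j :=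
  calc _ ≤ ∑ i ∈ A, G (κ i) := sum_le_sum h
    _ = ∑ j ∈ A.image κ, G j := (sum_image hinj).symm
    _ ≤ _ := sum_le_sum_of_subset fun j hj => by
      obtain ⟨i, hi, rfl⟩ := mem_image.1 hj
      exact hm i hi

lemma exists_sorted (n : ℕ) (d : ℕ → ℕ) : ∃ σ : ℕ → ℕ, (∀ y < n, ∃ x < n, σ x = y) ∧
    (∀ x < n, σ x < n) ∧ ∀ x x', x ≤ x' → x' < n → d (σ x) ≤ d (σ x') := by
  let f : Fin n → ℕ := fun i => d i
  refine ⟨fun x => if h : x < n then (Tuple.sort f ⟨x, h⟩ : ℕ) else 0, fun y hy => ?_,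
    fun x hx => ?_, fun x x' h h' => ?_⟩
  · refine ⟨((Tuple.sort f).symm ⟨y, hy⟩ : Fin n), Fin.is_lt _, ?_⟩
    simp
  · simp only [dif_pos hx]
    exact Fin.is_lt _
  · have hx : x < n := by omega
    simp only [dif_pos hx, dif_pos h']
    exact Tuple.monotone_sort f (show (⟨x, hx⟩ : Fin n) ≤ ⟨x', h'⟩ from h)

lemma tele (p : ℕ) (h : ℕ → ℕ) (hm : ∀ x x', x ≤ x' → x' < 2 * p → h x ≤ h x') :
    ∀ n, n + 1 ≤ p → ∑ ρ ∈ range (n + 1), (h (2 * ρ + 1) - h (2 * ρ)) ≤ h (2 * n + 1) := by
  intro n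
  induction n with
  | zero => intro _; simp
  | succ n ih =>
    intro hn
    have h1 := ih (by omega)
    have h2 := hm (2 * n + 1) (2 * (n + 1)) (by omega) (by omega)
    have h3 := hm (2 * (n + 1)) (2 * (n + 1) + 1) (by omega) (by omega)
    rw [sum_range_succ]
    omega

lemma bad_le (p : ℕ) (hp : 0 < p) (h : ℕ → ℕ) (hm : ∀ x x', x ≤ x' → x' < 2 * p → h x ≤ h x')
    (hb : ∀ x < 2 * p, h x ≤ 1082 * p) :
    #{ρ ∈ range p | p < h (2 * ρ + 1) - h (2 * ρ)} ≤ 1082 := by
  obtain ⟨n, rfl⟩ : ∃ n, p = n + 1 := ⟨p - 1, by omega⟩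
  have h1 := (tele (n + 1) h hm n le_rfl).trans (hb _ (by omega))
  have h2 := card_nsmul_le_sum {ρ ∈ range (n + 1) | n + 1 < h (2 * ρ + 1) - h (2 * ρ)}
    (fun ρ => h (2 * ρ + 1) - h (2 * ρ)) (n + 1) (fun ρ hρ => (mem_filter.1 hρ).2.le)
  have h3 := (h2.trans (sum_le_sum_of_subset (filter_subset _ _))).trans h1
  rw [smul_eq_mul] at h3
  exact Nat.le_of_mul_le_mul_right h3 hp

theorem cells0 (p : ℕ) (hp : 600000 ≤ p) (s : ℕ) (hs : s ≤ 1082 * p) (a b : ℕ → ℕ)
    (hab : ∀ i, a i ≤ b i) (hn : ∀ i, a i + b i = i + 1) :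
    ∃ (sl : Fin s → ℕ) (fl : Fin s → Bool) (Hv : Finset ℕ),
      (∀ i, sl i < 691 * p) ∧ 691 * p + #Hv ≤ 1200 * p ∧
      (∀ r < 691 * p,
        ∑ i with sl i = r, (i.val + 1) + r ≤ 1200 * p ∧
        2 * ∑ i with sl i = r, (if fl i then b i else a i) + r ≤ 1200 * p ∧
        (r ∉ Hv → 2 * ∑ i with sl i = r, (if fl i then a i else b i) + r ≤ 1200 * p)) := by
  classical
  have hp0 : 0 < p := by omega
  choose σ σ1 σ2 σ3 using fun u => exists_sorted (2 * p) fun y => b (2 * p * u + y) - a (2 * p * u + y)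
  obtain ⟨τ, hτ⟩ : ∃ τ : ℕ → Bool → ℕ → ℕ, ∀ u e ρ,
      τ u e ρ = 2 * p * u + σ u (2 * ρ + if e then 1 else 0) := ⟨_, fun _ _ _ => rfl⟩
  have τle : ∀ u e ρ, ρ < p → τ u e ρ + 1 ≤ p * (2 * (u + 1)) := fun u e ρ hρ => by
    have := σ2 u (2 * ρ + if e then 1 else 0) (by split_ifs <;> omega)
    rw [hτ]
    nlinarith
  have hκ : ∀ i : Fin s, ∃ u e ρ, u < 541 ∧ ρ < p ∧ τ u e ρ = i := fun i => by
    obtain ⟨x, hx, e⟩ := σ1 (i / (2 * p)) (i % (2 * p)) (Nat.mod_lt _ (by omega))
    refine ⟨i / (2 * p), decide (x % 2 = 1), x / 2, ?_, by omega, ?_⟩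
    · rw [Nat.div_lt_iff_lt_mul (by omega)]
      have := i.2
      omega
    · have : (2 * (x / 2) + if decide (x % 2 = 1) = true then 1 else 0) = x := by
        by_cases h : x % 2 = 1 <;> simp [h] <;> omega
      rw [hτ, this, e, Nat.div_add_mod]
  choose uu ee ρρ k1 k2 k3 using hκ
  obtain ⟨gap, hgap⟩ : ∃ gap : ℕ → ℕ → ℕ, ∀ u ρ, gap u ρ =
      (b (τ u true ρ) - a (τ u true ρ)) - (b (τ u false ρ) - a (τ u false ρ)) :=
    ⟨_, fun _ _ => rfl⟩
  have hmono : ∀ u ρ, ρ < p → b (τ u false ρ) - a (τ u false ρ) ≤ b (τ u true ρ) - a (τ u true ρ) :=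
    fun u ρ hρ => by
      rw [hτ, hτ]
      exact σ3 u _ _ (by simp) (by simp; omega)
  let H1 : Finset ℕ := (({z ∈ range 691 | isB z = false} : Finset ℕ) ×ˢ range p).image
    fun x => x.1 * p + x.2
  let H2 : Finset ℕ := (range 541).biUnion fun u =>
    ({ρ ∈ range p | p < gap u ρ} : Finset ℕ).image fun ρ => gg u false * p + ρ
  have c1 : #H1 ≤ 508 * p := card_image_le.trans (by
    rw [card_product, card_range]
    exact Nat.mul_le_mul_right _ tab2)
  have c2 : #H2 ≤ 541 * 1082 := by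
    refine card_biUnion_le.trans ((sum_le_card_nsmul _ _ 1082 fun u hu => ?_).trans (by simp))
    refine card_image_le.trans (le_trans (le_of_eq ?_) (bad_le p hp0
      (fun x => b (2 * p * u + σ u x) - a (2 * p * u + σ u x)) (σ3 u) fun x hx => ?_))
    · simp only [hgap, hτ, if_true, Bool.false_eq_true, if_false, add_zero]
    · have h1 := hn (2 * p * u + σ u x)
      have h2 := σ2 u x hx
      have h3 : u + 1 ≤ 541 := mem_range.1 hu
      have h4 : 2 * p * (u + 1) ≤ 2 * p * 541 := Nat.mul_le_mul_left _ h3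
      rw [mul_add] at h4
      show b _ - a _ ≤ _
      omega
  obtain ⟨sl, hsl⟩ : ∃ sl : Fin s → ℕ, ∀ i, sl i = gg (uu i) (ee i) * p + ρρ i := ⟨_, fun _ => rfl⟩
  have hdiv : ∀ i, sl i / p = gg (uu i) (ee i) ∧ sl i % p = ρρ i := fun i => by
    rw [hsl]
    constructor
    · rw [add_comm, Nat.add_mul_div_right _ _ hp0, Nat.div_eq_of_lt (k2 i), zero_add]
    · rw [add_comm, Nat.add_mul_mod_self_right, Nat.mod_eq_of_lt (k2 i)]
  have fib : ∀ r (F : ℕ → Bool → ℕ), ∑ i with sl i = r, F i (ee i) ≤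
      ∑ u ∈ range 541, ((if gg u true = r / p then F (τ u true (r % p)) true else 0) +
        (if gg u false = r / p then F (τ u false (r % p)) false else 0)) := fun r F => by
    refine (sum_le_of_inj _ (range 541 ×ˢ (univ : Finset Bool)) (fun i => (uu i, ee i)) _
      (fun x => if gg x.1 x.2 = r / p then F (τ x.1 x.2 (r % p)) x.2 else 0)
      (fun i _ => by simpa using k1 i) (fun i hi j hj e => ?_) fun i hi => ?_).trans (le_of_eq ?_)
    · have h1 : sl i = r := by simpa using hi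
      have h2 : sl j = r := by simpa using hj
      obtain ⟨e1, e2⟩ := Prod.mk.inj e
      apply Fin.ext
      rw [← k3 i, ← k3 j, e1, e2, ← (hdiv i).2, ← (hdiv j).2, h1, h2]
    · have h1 : sl i = r := by simpa using hi
      rw [← h1, (hdiv i).1, (hdiv i).2, if_pos rfl, k3]
    · rw [sum_product]
      simp only [Fintype.sum_bool]
  have fin : ∀ r < 691 * p, ∀ X, X ≤ ∑ u ∈ range 541, p * ((if gg u true = r / p then 2 * (u + 1)
      else 0) + (if gg u false = r / p then 2 * (u + 1) + (if isB (r / p) = true then 1 else 0)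
      else 0)) → X + r ≤ 1200 * p := fun r hr X hX => by
    rw [← mul_sum] at hX
    have h1 := Nat.mul_le_mul_left p (tab3 (r / p) ((Nat.div_lt_iff_lt_mul hp0).2 hr))
    have h2 := Nat.lt_mul_div_succ r hp0
    rw [mul_add, mul_add] at h1
    rw [mul_add] at h2
    omega
  have tot : ∀ r < 691 * p, ∑ i with sl i = r, (i.val + 1) + r ≤ 1200 * p := fun r hr => by
    refine fin r hr _ ((fib r fun i _ => i + 1).trans (sum_le_sum fun u _ => ?_))
    have h1 := τle u true (r % p) (Nat.mod_lt _ hp0)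
    have h2 := τle u false (r % p) (Nat.mod_lt _ hp0)
    rw [mul_add]
    refine Nat.add_le_add ?_ ?_
    · split_ifs <;> omega
    · split_ifs
      · rw [mul_add]; omega
      · rw [mul_add]; omega
      · omega
  have bal : ∀ r < 691 * p, r ∉ H1 ∪ H2 → ∀ F : ℕ → Bool → ℕ,
      (∀ u < 541, gap u (r % p) ≤ p → F (τ u true (r % p)) true + F (τ u false (r % p)) false ≤
        p * (2 * (u + 1)) + p * (2 * (u + 1)) + p) →
      ∑ i with sl i = r, F i (ee i) + r ≤ 1200 * p := fun r hr hH F hF => by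
    have hz : r / p < 691 := (Nat.div_lt_iff_lt_mul hp0).2 hr
    have hρ := Nat.mod_lt r hp0
    have hrr : r / p * p + r % p = r := Nat.div_add_mod' r p
    have hB : isB (r / p) = true := by
      by_contra h
      refine hH (mem_union_left _ (mem_image.2 ⟨(r / p, r % p), ?_, hrr⟩))
      simp only [mem_product, mem_filter, mem_range]
      exact ⟨⟨hz, by simpa using h⟩, hρ⟩
    refine fin r hr _ ((fib r F).trans (sum_le_sum fun u hu => ?_))
    have hu' : u < 541 := mem_range.1 hu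
    have t3 := (tab1 u hu').2.2
    by_cases h0 : gg u false = r / p
    · have h1 : gg u true = r / p := by rw [← t3 (Or.inl (by rw [h0]; exact hB)), h0]
      have hg : gap u (r % p) ≤ p := by
        by_contra h
        refine hH (mem_union_right _ (mem_biUnion.2 ⟨u, hu, mem_image.2 ⟨r % p, ?_, ?_⟩⟩))
        · exact mem_filter.2 ⟨mem_range.2 hρ, not_le.1 h⟩
        · rw [h0, hrr]
      have := hF u hu' hg
      rw [if_pos h1, if_pos h0, if_pos h1, if_pos h0, if_pos hB, mul_add, mul_add p _ 1]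
      omega
    · have h1 : gg u true ≠ r / p := fun h => h0 (by rw [t3 (Or.inr (by rw [h]; exact hB)), h])
      simp [h0, h1]
  refine ⟨sl, fun i => ee i && decide (sl i ∉ H1 ∪ H2), H1 ∪ H2, fun i => ?_, ?_,
    fun r hr => ⟨tot r hr, ?_, fun hH => ?_⟩⟩
  · have t1 := (tab1 (uu i) (k1 i)).1
    have t2 := (tab1 (uu i) (k1 i)).2.1
    have h1 : gg (uu i) (ee i) + 1 ≤ 691 := by cases ee i <;> omega
    have h2 := Nat.mul_le_mul_right p h1
    have h3 := k2 i
    rw [hsl]
    rw [add_mul] at h2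
    omega
  · have := card_union_le H1 H2
    omega
  · by_cases hH : r ∈ H1 ∪ H2
    · refine le_trans (Nat.add_le_add_right ?_ _) (tot r hr)
      rw [mul_sum]
      refine sum_le_sum fun i hi => ?_
      have h1 : sl i = r := by simpa using hi
      have h2 := hab i
      have h3 := hn i
      simp only [h1, hH, not_true, decide_false, Bool.and_false, Bool.false_eq_true, if_false]
      omega
    · refine le_trans (le_of_eq ?_) (bal r hr hH (fun i e => 2 * if e then b i else a i)
        fun u _ hg => ?_)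
      · rw [mul_sum]
        refine congrArg (· + r) (sum_congr rfl fun i hi => ?_)
        have h1 : sl i = r := by simpa using hi
        simp only [h1, hH, not_false_iff, decide_true, Bool.and_true]
      · have h1 := τle u true (r % p) (Nat.mod_lt _ hp0)
        have h2 := τle u false (r % p) (Nat.mod_lt _ hp0)
        have h3 := hmono u (r % p) (Nat.mod_lt _ hp0)
        rw [hgap] at hg
        have h4 := hab (τ u true (r % p))
        have h5 := hab (τ u false (r % p))
        have h6 := hn (τ u true (r % p))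
        have h7 := hn (τ u false (r % p))
        simp only [if_true, Bool.false_eq_true, if_false]
        omega
  · refine le_trans (le_of_eq ?_) (bal r hr hH (fun i e => 2 * if e then a i else b i)
      fun u _ hg => ?_)
    · rw [mul_sum]
      refine congrArg (· + r) (sum_congr rfl fun i hi => ?_)
      have h1 : sl i = r := by simpa using hi
      simp only [h1, hH, not_false_iff, decide_true, Bool.and_true]
    · have h1 := τle u true (r % p) (Nat.mod_lt _ hp0)
      have h2 := τle u false (r % p) (Nat.mod_lt _ hp0)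
      have h3 := hmono u (r % p) (Nat.mod_lt _ hp0)
      have h4 := hab (τ u true (r % p))
      have h5 := hab (τ u false (r % p))
      have h6 := hn (τ u true (r % p))
      have h7 := hn (τ u false (r % p))
      simp only [if_true, Bool.false_eq_true, if_false]
      omega

theorem cells (p : ℕ) (hp : 600000 ≤ p) (s : ℕ) (hs : s ≤ 1082 * p) (a b : Fin s → ℕ)
    (hab : ∀ i, a i ≤ b i) (hn : ∀ i, a i + b i = i.val + 1) :
    ∃ (sl : Fin s → ℕ) (fl : Fin s → Bool) (Hv : Finset ℕ),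
      (∀ i, sl i < 691 * p) ∧ 691 * p + #Hv ≤ 1200 * p ∧
      (∀ r < 691 * p,
        ∑ i with sl i = r, (i.val + 1) + r ≤ 1200 * p ∧
        2 * ∑ i with sl i = r, (if fl i then b i else a i) + r ≤ 1200 * p ∧
        (r ∉ Hv → 2 * ∑ i with sl i = r, (if fl i then a i else b i) + r ≤ 1200 * p)) := by
  have h := cells0 p hp s hs (fun i => if h : i < s then a ⟨i, h⟩ else 0)
    (fun i => if h : i < s then b ⟨i, h⟩ else i + 1)
    (fun i => by by_cases h : i < s <;> simp [h, hab])
    (fun i => by by_cases h : i < s <;> simp [h, hn])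
  simpa only [Fin.is_lt, dif_pos, Fin.eta] using h

end Pool.Agent.Lib.MP_12a5fd_co.Cells
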