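import Pool.Agent.Results.MP_12a5fd_co.Caterpillars

/-! Two explicit families covered by the two-class criterion. -/

namespace Pool.Agent.Lib.MP_12a5fd_co

open SimpleGraph
open Pool.Agent.Results.MP_12a5fd_co.Caterpillars (Packs SpineEnd result)

theorem corollaries :
    ∀ (n : ℕ) (T : ∀ i : Fin n, SimpleGraph (Fin (i.val + 1))), (∀ i, (T i).IsTree) →
      -- (a) caterpillars; each one with more than `⌈n/2⌉` vertices has a spine end of
      -- degree at least `⌊n/2⌋`
      ((∀ i, ∃ u, SpineEnd (T i) u ∧
          ((n + 1) / 2 < i.val + 1 → n / 2 ≤ ((T i).neighborSet u).ncard)) → Packs n T) ∧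
      -- (b) caterpillars with a spine end `u` such that all other vertices in the colour class
      -- of `u` have even degree
      ((∀ i, ∃ u, SpineEnd (T i) u ∧
          ∀ w, w ≠ u → Even ((T i).dist u w) → Even ((T i).neighborSet w).ncard) → Packs n T) := by
  intro n T hT
  refine ⟨fun h => ?_, fun h => ?_⟩
  · refine result n T hT
      (fun b => if b then {l | l < (n + 1) / 2} else {l | n / 2 ≤ l ∧ l ≤ n - 1 ∧ 1 ≤ n})
      (fun b l => if b then l else n - 1 - l) ?_ ?_ ?_ ?_
    · rintro (_ | _) a ha c hc hac <;>
        simp only [Bool.false_eq_true, if_false, if_true, Set.mem_ofPred_eq] at * <;> omega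
    · rintro (_ | _) a ha <;>
        simp only [Bool.false_eq_true, if_false, if_true, Set.mem_ofPred_eq] at * <;> omega
    · intro a ha c hc hac
      simp only [Bool.false_eq_true, if_false, if_true, Set.mem_ofPred_eq] at *
      omega
    · intro i hi
      have hin := i.isLt
      obtain ⟨u, hu, hD⟩ := h i
      by_cases him : i.val < (n + 1) / 2
      · refine ⟨u, true, hu, by simpa using him, fun s hs => ?_⟩
        have := Pool.Agent.Lib.MP_12a5fd_co.cuts_lt (T i) u hs
        simp only [if_true, Set.mem_ofPred_eq]
        omega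
      · refine ⟨u, false, hu, ?_, fun s hs => ?_⟩
        · simp only [Bool.false_eq_true, if_false, Set.mem_ofPred_eq]
          omega
        · have := Pool.Agent.Lib.MP_12a5fd_co.cuts_lt (T i) u hs
          have := Pool.Agent.Lib.MP_12a5fd_co.cuts_ge (T i) u hs
          have := hD (by omega)
          simp only [Bool.false_eq_true, if_false, Set.mem_ofPred_eq]
          omega
  · refine result n T hT
      (fun b => if b then {l | l % 2 = 1 ∧ l < n} else {l | l % 2 = 0 ∧ l < n})
      (fun b l => if b then (l + n % 2) / 2 else (n - 1 - l) / 2) ?_ ?_ ?_ ?_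
    · rintro (_ | _) a ha c hc hac <;>
        simp only [Bool.false_eq_true, if_false, if_true, Set.mem_ofPred_eq] at * <;> omega
    · rintro (_ | _) a ha <;>
        simp only [Bool.false_eq_true, if_false, if_true, Set.mem_ofPred_eq] at * <;> omega
    · intro a ha c hc hac
      simp only [Bool.false_eq_true, if_false, if_true, Set.mem_ofPred_eq] at *
      omega
    · intro i hi
      have hin := i.isLt
      obtain ⟨u, ⟨v, p, hp, hd⟩, hD⟩ := h i
      have hpar : ∀ s ∈ Pool.Agent.Results.MP_12a5fd_co.Caterpillars.Cuts (T i) u, s % 2 = i.val % 2 ∧ s < n := fun s hs =>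
        ⟨Pool.Agent.Lib.MP_12a5fd_co.cuts_parity (T i) (hT i) p hp hd hD hs,
          (Pool.Agent.Lib.MP_12a5fd_co.cuts_lt (T i) u hs).trans hin⟩
      by_cases him : i.val % 2 = 1
      · refine ⟨u, true, ⟨v, p, hp, hd⟩, ⟨him, hin⟩, fun s hs => ?_⟩
        have := hpar s hs
        simp only [if_true, Set.mem_ofPred_eq]
        omega
      · refine ⟨u, false, ⟨v, p, hp, hd⟩, ⟨by omega, hin⟩, fun s hs => ?_⟩
        have := hpar s hs
        simp only [Bool.false_eq_true, if_false, Set.mem_ofPred_eq]
        omega

end Pool.Agent.Lib.MP_12a5fd_co
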