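import Pool.Agent.Lib.MP_12a5fd_co.Pack

/-! Location of the cut points in the two explicit families. -/

namespace Pool.Agent.Lib.MP_12a5fd_co

open SimpleGraph

theorem cuts_lt {l : ℕ} (G : SimpleGraph (Fin (l + 1))) (u : Fin (l + 1)) {s : ℕ}
    (h : s ∈ Cuts G u) : s < l := by
  obtain ⟨k, -, h2⟩ := h
  rw [ball_eq] at h2
  have := Finset.card_le_univ (Finset.univ.filter (fun w => G.dist u w ≤ 2 * k + 2))
  rw [Fintype.card_fin] at this
  omega

theorem cuts_ge {l : ℕ} (G : SimpleGraph (Fin (l + 1))) (u : Fin (l + 1)) {s : ℕ}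
    (h : s ∈ Cuts G u) : (G.neighborSet u).ncard ≤ s := by
  obtain ⟨k, h1, -⟩ := h
  have hsub : insert u (G.neighborSet u) ⊆ {w | G.dist u w ≤ 2 * k + 1} := by
    rintro w (rfl | hw)
    · simp
    · have : G.dist u w = 1 := dist_eq_one_iff_adj.mpr hw
      show G.dist u w ≤ 2 * k + 1
      omega
  have := Set.ncard_le_ncard hsub (Set.toFinite _)
  rw [Set.ncard_insert_of_notMem (by simp) (Set.toFinite _)] at this
  unfold ball at h1
  omega

theorem cuts_parity {l : ℕ} (G : SimpleGraph (Fin (l + 1))) (hT : G.IsTree)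
    {u v : Fin (l + 1)} (p : G.Walk u v) (hp : p.IsPath)
    (hdom : ∀ w, w ∈ p.support ∨ ∃ z ∈ p.support, G.Adj w z)
    (hev : ∀ w, w ≠ u → Even (G.dist u w) → Even (G.neighborSet w).ncard) {c : ℕ}
    (h : c ∈ Cuts G u) : c % 2 = l % 2 := by
  classical
  obtain ⟨S, s, hSu, hsu, hSinj, hp1, hp2, hp3, hE⟩ := edge_structure G hT p hp hdom
  have hdist := dist_formula G hT u S s hSu hsu hSinj hp1 hp2 hE
  obtain ⟨k, h1, h2⟩ := h
  have hadj : ∀ a b, G.Adj a b → (G.dist u a + 1 = G.dist u b ∧ S a) ∨
      (G.dist u b + 1 = G.dist u a ∧ S b) := by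
    intro a b hab
    rcases hE a b hab with ⟨e1, e2, e3⟩ | ⟨e1, e2, e3⟩ | ⟨e1, e2, e3⟩
    · have := (hdist a).1 e1
      have := (hdist b).1 e2
      rcases e3 with e3 | e3
      · exact Or.inr ⟨by omega, e2⟩
      · exact Or.inl ⟨by omega, e1⟩
    · have := (hdist a).1 e1
      have := (hdist b).2 e2
      exact Or.inl ⟨by omega, e1⟩
    · have := (hdist a).2 e1
      have := (hdist b).1 e2
      exact Or.inr ⟨by omega, e2⟩
  have hpar : ∀ w, ∃ z, 1 ≤ G.dist u w → G.Adj w z ∧ G.dist u z + 1 = G.dist u w ∧ S z := by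
    intro w
    by_cases hw : S w
    · have hd := (hdist w).1 hw
      by_cases h1 : 1 ≤ s w
      · obtain ⟨z, z1, z2, z3⟩ := hp2 w hw h1
        have := (hdist z).1 z1
        exact ⟨z, fun _ => ⟨z2, by omega, z1⟩⟩
      · exact ⟨w, fun h => by omega⟩
    · obtain ⟨z, z1, z2, z3⟩ := hp1 w hw
      have := (hdist z).1 z1
      have := (hdist w).2 hw
      exact ⟨z, fun _ => ⟨z2, by omega, z1⟩⟩
  choose par hpar using hpar
  have huniq : ∀ a b, S a → S b → G.dist u a = G.dist u b → a = b := by
    intro a b ha hb hab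
    have := (hdist a).1 ha
    have := (hdist b).1 hb
    exact hSinj a b ha hb (by omega)
  have hne : ∀ w, 1 ≤ G.dist u w → w ≠ u := by
    rintro w hw rfl
    simp at hw
  -- vertices at even positive distance lie on the spine
  have hspine : ∀ w, 1 ≤ G.dist u w → G.dist u w % 2 = 0 → S w := by
    intro w hw1 hw2
    by_contra hw
    have hone : G.neighborSet w = {par w} := by
      ext z
      simp only [mem_neighborSet, Set.mem_singleton_iff]
      refine ⟨fun hz => ?_, fun hz => hz ▸ (hpar w hw1).1⟩
      rcases hadj w z hz with ⟨-, e⟩ | ⟨e1, e2⟩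
      · exact absurd e hw
      · have := hpar w hw1
        exact huniq _ _ e2 this.2.2 (by omega)
    have := hev w (hne w hw1) (Nat.even_iff.mpr hw2)
    rw [hone, Set.ncard_singleton] at this
    exact absurd this (by decide)
  have hlayer : ball G u (2 * k + 2) ≤ ball G u (2 * k + 1) + 1 := by
    rw [ball_eq, ball_eq]
    by_cases hex : ∃ y, G.dist u y = 2 * k + 2
    · obtain ⟨y, hy⟩ := hex
      refine le_trans (Finset.card_le_card (t := insert y (Finset.univ.filter
        (fun w => G.dist u w ≤ 2 * k + 1))) ?_) (Finset.card_insert_le _ _)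
      intro w hw
      simp only [Finset.mem_insert, Finset.mem_filter, Finset.mem_univ, true_and] at hw ⊢
      by_cases hw' : G.dist u w = 2 * k + 2
      · exact Or.inl (huniq _ _ (hspine w (by omega) (by omega)) (hspine y (by omega) (by omega))
          (by omega))
      · exact Or.inr (by omega)
    · refine le_trans (Finset.card_le_card ?_) (Nat.le_succ _)
      intro w hw
      simp only [Finset.mem_filter, Finset.mem_univ, true_and] at hw ⊢
      have : G.dist u w ≠ 2 * k + 2 := fun h => hex ⟨w, h⟩
      omega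
  let F := Finset.univ.filter (fun z => ¬ G.dist u z ≤ 2 * k + 1)
  let E := Finset.univ.filter (fun z => 2 * k + 2 ≤ G.dist u z ∧ G.dist u z % 2 = 0)
  let φ : Fin (l + 1) → Fin (l + 1) := fun w => if G.dist u w % 2 = 0 then w else par w
  have hcompl : F.card + ball G u (2 * k + 1) = l + 1 := by
    rw [ball_eq, add_comm, Finset.card_filter_add_card_filter_not]
    simp
  have hmap : ∀ w ∈ F, φ w ∈ E := by
    intro w hw
    simp only [F, E, φ, Finset.mem_filter, Finset.mem_univ, true_and] at hw ⊢
    split_ifs with h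
    · omega
    · have := (hpar w (by omega)).2.1
      omega
  have hsum := Finset.card_eq_sum_card_fiberwise (f := φ) (s := F) (t := E) hmap
  have heven : Even F.card := by
    rw [hsum]
    apply Finset.even_sum
    intro x hx
    simp only [E, Finset.mem_filter, Finset.mem_univ, true_and] at hx
    have px := hpar x (by omega)
    have hfib : F.filter (fun w => φ w = x) =
        insert x ((G.neighborSet x).toFinset.erase (par x)) := by
      ext w
      simp only [F, φ, Finset.mem_filter, Finset.mem_univ, true_and, Finset.mem_insert,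
        Finset.mem_erase, Set.mem_toFinset, mem_neighborSet]
      constructor
      · rintro ⟨w1, w2⟩
        split_ifs at w2 with h
        · exact Or.inl w2
        · have pw := hpar w (by omega)
          rw [w2] at pw
          refine Or.inr ⟨fun hh => ?_, pw.1.symm⟩
          rw [hh] at pw
          omega
      · rintro (rfl | ⟨w1, w2⟩)
        · exact ⟨by omega, by rw [if_pos hx.2]⟩
        · rcases hadj x w w2 with ⟨e1, e2⟩ | ⟨e1, e2⟩
          · have pw := hpar w (by omega)
            refine ⟨by omega, ?_⟩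
            rw [if_neg (by omega)]
            exact huniq _ _ pw.2.2 e2 (by omega)
          · exact absurd (huniq _ _ e2 px.2.2 (by omega)) w1
    have hmem : par x ∈ (G.neighborSet x).toFinset := by simpa using px.1
    rw [hfib, Finset.card_insert_of_notMem (by simp), Finset.card_erase_add_one hmem,
      ← Set.ncard_eq_toFinset_card']
    exact hev x (hne x (by omega)) (Nat.even_iff.mpr hx.2)
  rw [Nat.even_iff] at heven
  omega

end Pool.Agent.Lib.MP_12a5fd_co
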