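import Mathlib

/-! A caterpillar has a vertex order in which no edge `y < x` encloses a pair `y' < x'`. -/

namespace Pool.Agent.Lib.MP_12a5fd_co

open SimpleGraph

/-- The order condition for an oriented edge from `x` (row side) to `y` (column side). -/
def GoodEdge {V : Type} (X : V → Prop) (lab : V → ℕ) (x y : V) : Prop :=
  X x ∧ ¬ X y ∧ lab y < lab x ∧
    ∀ x' y', X x' → ¬ X y' → lab y < lab y' → lab y' < lab x' → lab x' < lab x → False

/-- A good labelling of a graph on `l + 1` vertices. -/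
def Lab {l : ℕ} (G : SimpleGraph (Fin (l + 1))) (R : Set ℕ) : Prop :=
  ∃ (X : Fin (l + 1) → Prop) (lab : Fin (l + 1) → ℕ),
    Function.Injective lab ∧ (∀ v, lab v ≤ l) ∧ (∀ s, s ≤ l → ∃ v, lab v = s) ∧
    (∀ a b, G.Adj a b → GoodEdge X lab a b ∨ GoodEdge X lab b a) ∧
    (∀ v, lab v = l → X v) ∧ (∀ v, lab v = 0 → ¬ X v) ∧
    (∀ v, X v → lab v < l → lab v ∈ R)

/-- Structure of the edges of a caterpillar. -/
theorem edge_structure {V : Type} (G : SimpleGraph V) (hT : G.IsTree) {u v : V}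
    (p : G.Walk u v) (hp : p.IsPath) (hdom : ∀ w, w ∈ p.support ∨ ∃ z ∈ p.support, G.Adj w z) :
    ∃ (S : V → Prop) (s : V → ℕ),
      S u ∧ s u = 0 ∧ (∀ a b, S a → S b → s a = s b → a = b) ∧
      (∀ w, ¬ S w → ∃ z, S z ∧ G.Adj w z ∧ s z = s w) ∧
      (∀ w, S w → 1 ≤ s w → ∃ z, S z ∧ G.Adj w z ∧ s z + 1 = s w) ∧
      (∀ w k, k ≤ s w → ∃ z, S z ∧ s z = k) ∧
      ∀ a b, G.Adj a b →
        (S a ∧ S b ∧ (s a = s b + 1 ∨ s b = s a + 1)) ∨
        (S a ∧ ¬ S b ∧ s a = s b) ∨ (¬ S a ∧ S b ∧ s a = s b) := by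
  have hs : ∀ w, ∃ k, k ≤ p.length ∧ (w ∈ p.support → p.getVert k = w) ∧
      (w ∉ p.support → G.Adj w (p.getVert k)) := by
    intro w
    by_cases hw : w ∈ p.support
    · obtain ⟨k, hk1, hk2⟩ := Walk.mem_support_iff_exists_getVert.mp hw
      exact ⟨k, hk2, fun _ => hk1, fun h => absurd hw h⟩
    · obtain ⟨z, hz, hadj⟩ := (hdom w).resolve_left hw
      obtain ⟨k, hk1, hk2⟩ := Walk.mem_support_iff_exists_getVert.mp hz
      exact ⟨k, hk2, fun h => absurd h hw, fun _ => hk1 ▸ hadj⟩
  choose s hs1 hs2 hs3 using hs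
  have hmem : ∀ k, k ≤ p.length → p.getVert k ∈ p.support := fun k hk =>
    Walk.mem_support_iff_exists_getVert.mpr ⟨k, rfl, hk⟩
  have hsk : ∀ k, k ≤ p.length → s (p.getVert k) = k := fun k hk =>
    hp.getVert_injOn (hs1 _) hk (hs2 _ (hmem k hk))
  refine ⟨fun w => w ∈ p.support, s, p.start_mem_support, ?_, ?_, ?_, ?_, ?_, ?_⟩
  · have := hsk 0 (Nat.zero_le _)
    rwa [p.getVert_zero] at this
  · intro a b ha hb h
    rw [← hs2 a ha, ← hs2 b hb, h]
  · intro w hw
    exact ⟨_, hmem _ (hs1 w), hs3 w hw, hsk _ (hs1 w)⟩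
  · intro w hw h1
    have h2 := hs1 w
    refine ⟨p.getVert (s w - 1), hmem _ (by omega), ?_, by rw [hsk _ (by omega)]; omega⟩
    have h3 := p.adj_getVert_succ (i := s w - 1) (by omega)
    rw [show s w - 1 + 1 = s w by omega, hs2 w hw] at h3
    exact h3.symm
  · intro w k hk
    have h2 := hs1 w
    exact ⟨p.getVert k, hmem _ (by omega), hsk _ (by omega)⟩
  · intro a b hab
    by_contra hcon
    have hbr := isAcyclic_iff_forall_isBridge.mp hT.isAcyclic (G.mem_edgeSet.mpr hab)
    rw [isBridge_iff] at hbr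
    apply hbr
    have key : ∀ c d, G.Adj c d →
        ((c ∈ p.support ∧ d ∈ p.support ∧ (s c = s d + 1 ∨ s d = s c + 1)) ∨
        (c ∈ p.support ∧ d ∉ p.support ∧ s c = s d) ∨ (c ∉ p.support ∧ d ∈ p.support ∧ s c = s d)) →
        (G.deleteEdges {s(a, b)}).Adj c d := by
      intro c d hcd hgood
      rw [deleteEdges_adj]
      refine ⟨hcd, fun hm => ?_⟩
      rw [Set.mem_singleton_iff, Sym2.eq_iff] at hm
      rcases hm with ⟨rfl, rfl⟩ | ⟨rfl, rfl⟩
      · exact hcon hgood
      · apply hcon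
        rcases hgood with ⟨h1, h2, h3⟩ | ⟨h1, h2, h3⟩ | ⟨h1, h2, h3⟩
        · exact Or.inl ⟨h2, h1, h3.symm⟩
        · exact Or.inr (Or.inr ⟨h2, h1, h3.symm⟩)
        · exact Or.inr (Or.inl ⟨h2, h1, h3.symm⟩)
    have hspine : ∀ k, k ≤ p.length → (G.deleteEdges {s(a, b)}).Reachable u (p.getVert k) := by
      intro k
      induction k with
      | zero => intro _; rw [p.getVert_zero]
      | succ k ih =>
        intro hk
        refine (ih (by omega)).trans (Adj.reachable (key _ _ (p.adj_getVert_succ (by omega)) ?_))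
        exact Or.inl ⟨hmem k (by omega), hmem _ hk, Or.inr (by rw [hsk k (by omega), hsk _ hk])⟩
    have hall : ∀ w, (G.deleteEdges {s(a, b)}).Reachable u w := by
      intro w
      by_cases hw : w ∈ p.support
      · rw [← hs2 w hw]; exact hspine _ (hs1 w)
      · refine (hspine _ (hs1 w)).trans (Adj.reachable (key _ _ (hs3 w hw).symm ?_))
        exact Or.inr (Or.inl ⟨hmem _ (hs1 w), hw, hsk _ (hs1 w)⟩)
    exact (hall a).symm.trans (hall b)

/-- Ranking an injective integer key. -/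
theorem exists_rank {l : ℕ} (key : Fin (l + 1) → ℤ) :
    ∃ lab : Fin (l + 1) → ℕ, Function.Injective lab ∧ (∀ v, lab v ≤ l) ∧
      (∀ s, s ≤ l → ∃ v, lab v = s) ∧ (∀ a b, key a < key b → lab a < lab b) ∧
      (∀ v (F : Finset (Fin (l + 1))), (∀ w ∈ F, key v < key w) → lab v + F.card ≤ l) ∧
      (∀ v (F : Finset (Fin (l + 1))), (∀ w ∈ F, key w < key v) → F.card ≤ lab v) := by
  classical
  let κ : Fin (l + 1) → ℤ := fun w => key w * (l + 1) + w.val
  have hκ : ∀ a b, key a < key b → κ a < κ b := by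
    intro a b h
    have ha := a.isLt
    have h1 : (key a + 1) * (l + 1) ≤ key b * (l + 1) :=
      mul_le_mul_of_nonneg_right (by omega) (by positivity)
    simp only [κ]
    have : (a.val : ℤ) < l + 1 := by exact_mod_cast ha
    have : (0 : ℤ) ≤ b.val := by positivity
    nlinarith
  have hκi : Function.Injective κ := by
    intro a b h
    rcases lt_trichotomy (key a) (key b) with h1 | h1 | h1
    · exact absurd h (hκ a b h1).ne
    · simp only [κ, h1] at h
      exact Fin.ext (by omega)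
    · exact absurd h (hκ b a h1).ne'
  let lab : Fin (l + 1) → ℕ := fun w => (Finset.univ.filter (fun w' => κ w' < κ w)).card
  have hmono : ∀ a b, κ a < κ b → lab a < lab b := by
    intro a b h
    apply Finset.card_lt_card
    refine ⟨fun w hw => ?_, fun hsub => ?_⟩
    · simp only [Finset.mem_filter, Finset.mem_univ, true_and] at hw ⊢
      exact hw.trans h
    · have : a ∈ Finset.univ.filter (fun w' => κ w' < κ a) := hsub (by simpa using h)
      simp at this
  have hinj : Function.Injective lab := by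
    intro a b h
    rcases lt_trichotomy (κ a) (κ b) with h1 | h1 | h1
    · exact absurd h (hmono a b h1).ne
    · exact hκi h1
    · exact absurd h (hmono b a h1).ne'
  have hF : ∀ v (F : Finset (Fin (l + 1))), (∀ w ∈ F, key v < key w) → lab v + F.card ≤ l := by
    intro v F hFv
    have hd : Disjoint (Finset.univ.filter (fun w' => κ w' < κ v)) F := by
      rw [Finset.disjoint_left]
      intro w hw hwF
      simp only [Finset.mem_filter, Finset.mem_univ, true_and] at hw
      exact absurd (hκ v w (hFv w hwF)) (not_lt.mpr hw.le)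
    have hsub : (Finset.univ.filter (fun w' => κ w' < κ v)) ∪ F ⊆ Finset.univ.erase v := by
      intro w hw
      simp only [Finset.mem_union, Finset.mem_filter, Finset.mem_univ, true_and,
        Finset.mem_erase, and_true] at hw ⊢
      rintro rfl
      rcases hw with h | h
      · exact lt_irrefl _ h
      · exact lt_irrefl _ (hFv _ h)
    have := Finset.card_le_card hsub
    rw [Finset.card_union_of_disjoint hd, Finset.card_erase_of_mem (Finset.mem_univ _)] at this
    simpa using this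
  have hle : ∀ v, lab v ≤ l := fun v => by simpa using hF v ∅ (by simp)
  refine ⟨lab, hinj, hle, ?_, fun a b h => hmono a b (hκ a b h), hF, fun v F hFv =>
    Finset.card_le_card fun w hw => by simpa using hκ w v (hFv w hw)⟩
  intro s hs
  let f : Fin (l + 1) → Fin (l + 1) := fun v => ⟨lab v, Nat.lt_succ_of_le (hle v)⟩
  have hf : Function.Injective f := fun a b h => hinj (by simpa [f] using h)
  obtain ⟨v, hv⟩ := Finite.injective_iff_surjective.mp hf ⟨s, Nat.lt_succ_of_le hs⟩
  exact ⟨v, by simpa [f] using hv⟩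

/-- Number of vertices within distance `d` of `u`. -/
noncomputable def ball {V : Type} (G : SimpleGraph V) (u : V) (d : ℕ) : ℕ :=
  {w | G.dist u w ≤ d}.ncard

/-- The numbers `s` such that vertex number `s + 1` in breadth-first order from `u` (vertex
number `0`) is at an even distance from `u`. -/
def Cuts {V : Type} (G : SimpleGraph V) (u : V) : Set ℕ :=
  {s | ∃ k, ball G u (2 * k + 1) ≤ s + 1 ∧ s + 1 < ball G u (2 * k + 2)}

theorem ball_eq {l : ℕ} (G : SimpleGraph (Fin (l + 1))) (u : Fin (l + 1)) (d : ℕ) :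
    ball G u d = (Finset.univ.filter (fun w => G.dist u w ≤ d)).card := by
  rw [ball, ← Set.ncard_coe_finset]
  congr 1
  ext w
  simp

open Classical in
theorem dist_formula {V : Type} (G : SimpleGraph V) (hT : G.IsTree) (u : V)
    (S : V → Prop) (s : V → ℕ) (hSu : S u) (hsu : s u = 0)
    (hSinj : ∀ a b, S a → S b → s a = s b → a = b)
    (hp1 : ∀ w, ¬ S w → ∃ z, S z ∧ G.Adj w z ∧ s z = s w)
    (hp2 : ∀ w, S w → 1 ≤ s w → ∃ z, S z ∧ G.Adj w z ∧ s z + 1 = s w)
    (hE : ∀ a b, G.Adj a b →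
        (S a ∧ S b ∧ (s a = s b + 1 ∨ s b = s a + 1)) ∨
        (S a ∧ ¬ S b ∧ s a = s b) ∨ (¬ S a ∧ S b ∧ s a = s b)) :
    ∀ w, (S w → G.dist u w = s w) ∧ (¬ S w → G.dist u w = s w + 1) := by
  let δ : V → ℕ := fun w => if S w then s w else s w + 1
  have hlip : ∀ a b (q : G.Walk a b), δ b ≤ δ a + q.length := by
    intro a b q
    induction q with
    | nil => simp
    | cons h q ih =>
      rename_i a c b
      have e := hE a c h
      have : δ c ≤ δ a + 1 := by
        simp only [δ]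
        rcases e with ⟨e1, e2, e3⟩ | ⟨e1, e2, e3⟩ | ⟨e1, e2, e3⟩ <;>
        simp only [e1, e2, if_true, if_false] <;> omega
      rw [Walk.length_cons]
      omega
  have hlow : ∀ w, δ w ≤ G.dist u w := by
    intro w
    obtain ⟨q, hq⟩ := hT.connected.exists_walk_length_eq_dist u w
    have := hlip u w q
    have h0 : δ u = 0 := by simp [δ, hSu, hsu]
    omega
  have hstep : ∀ z w, G.Adj w z → G.dist u w ≤ G.dist u z + 1 := by
    intro z w h
    have h1 := hT.connected.dist_triangle (u := u) (v := z) (w := w)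
    have h2 : G.dist z w = 1 := dist_eq_one_iff_adj.mpr h.symm
    omega
  have hup : ∀ k w, S w → s w = k → G.dist u w ≤ k := by
    intro k
    induction k with
    | zero =>
      intro w hw h
      rw [hSinj w u hw hSu (by omega), dist_self]
    | succ k ih =>
      intro w hw h
      obtain ⟨z, hz1, hz2, hz3⟩ := hp2 w hw (by omega)
      have := ih z hz1 (by omega)
      have := hstep z w hz2
      omega
  intro w
  have h1 := hlow w
  refine ⟨fun hw => ?_, fun hw => ?_⟩
  · have := hup _ w hw rfl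
    simp only [δ, hw, if_true] at h1
    omega
  · obtain ⟨z, hz1, hz2, hz3⟩ := hp1 w hw
    have := hup _ z hz1 rfl
    have := hstep z w hz2
    simp only [δ, hw, if_false] at h1
    omega

theorem lab_of_caterpillar {l : ℕ} (hl : 1 ≤ l) (G : SimpleGraph (Fin (l + 1))) (hT : G.IsTree)
    {u v : Fin (l + 1)} (p : G.Walk u v) (hp : p.IsPath)
    (hdom : ∀ w, w ∈ p.support ∨ ∃ z ∈ p.support, G.Adj w z) : Lab G (Cuts G u) := by
  classical
  obtain ⟨S, s, hSu, hsu, hSinj, hp1, hp2, hp3, hE⟩ := edge_structure G hT p hp hdom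
  have hdist := dist_formula G hT u S s hSu hsu hSinj hp1 hp2 hE
  let X : Fin (l + 1) → Prop := fun w => (S w ∧ s w % 2 = 0) ∨ (¬ S w ∧ s w % 2 = 1)
  let key : Fin (l + 1) → ℤ := fun w =>
    if S w then (if s w % 2 = 0 then 4 * (s w : ℤ) + 3 else 4 * (s w : ℤ) - 3)
    else 4 * (s w : ℤ)
  have hX : ∀ w, X w → (S w ∧ s w % 2 = 0 ∧ key w = 4 * (s w : ℤ) + 3) ∨
      (¬ S w ∧ s w % 2 = 1 ∧ key w = 4 * (s w : ℤ)) := by
    rintro w (⟨h1, h2⟩ | ⟨h1, h2⟩)
    · exact Or.inl ⟨h1, h2, by simp [key, h1, h2]⟩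
    · exact Or.inr ⟨h1, h2, by simp [key, h1]⟩
  have hY : ∀ w, ¬ X w → (S w ∧ s w % 2 = 1 ∧ key w = 4 * (s w : ℤ) - 3) ∨
      (¬ S w ∧ s w % 2 = 0 ∧ key w = 4 * (s w : ℤ)) := by
    intro w hw
    by_cases h1 : S w
    · have h2 : ¬ s w % 2 = 0 := fun h => hw (Or.inl ⟨h1, h⟩)
      exact Or.inl ⟨h1, by omega, by simp [key, h1, h2]⟩
    · have h2 : ¬ s w % 2 = 1 := fun h => hw (Or.inr ⟨h1, h⟩)
      exact Or.inr ⟨h1, by omega, by simp [key, h1]⟩
  have hall : ∀ w, (S w ∧ s w % 2 = 0 ∧ key w = 4 * (s w : ℤ) + 3 ∧ G.dist u w = s w) ∨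
      (S w ∧ s w % 2 = 1 ∧ key w = 4 * (s w : ℤ) - 3 ∧ G.dist u w = s w) ∨
      (¬ S w ∧ key w = 4 * (s w : ℤ) ∧ G.dist u w = s w + 1) := by
    intro w
    by_cases hw : X w
    · rcases hX w hw with ⟨k1, k2, k3⟩ | ⟨k1, k2, k3⟩
      · exact Or.inl ⟨k1, k2, k3, (hdist w).1 k1⟩
      · exact Or.inr (Or.inr ⟨k1, k3, (hdist w).2 k1⟩)
    · rcases hY w hw with ⟨k1, k2, k3⟩ | ⟨k1, k2, k3⟩
      · exact Or.inr (Or.inl ⟨k1, k2, k3, (hdist w).1 k1⟩)
      · exact Or.inr (Or.inr ⟨k1, k3, (hdist w).2 k1⟩)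
  obtain ⟨lab, hinj, hle, hsurj, hmono, hF, hF'⟩ := exists_rank key
  have hkey : ∀ a b, lab a < lab b → key a ≤ key b := fun a b h =>
    not_lt.mp fun h' => absurd (hmono b a h') (by omega)
  -- oriented edges
  have hgood : ∀ x y, G.Adj x y → X x → ¬ X y → GoodEdge X lab x y := by
    intro x y hxy hx hy
    have e := hE x y hxy
    have kx := hX x hx
    have ky := hY y hy
    refine ⟨hx, hy, hmono _ _ ?_, fun x' y' hx' hy' h1 h2 h3 => ?_⟩
    · rcases e with ⟨e1, e2, e3⟩ | ⟨e1, e2, e3⟩ | ⟨e1, e2, e3⟩ <;>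
      rcases kx with ⟨k1, k2, k3⟩ | ⟨k1, k2, k3⟩ <;>
      rcases ky with ⟨k4, k5, k6⟩ | ⟨k4, k5, k6⟩ <;> first | contradiction | omega
    · have q1 := hkey _ _ h1
      have q2 := hkey _ _ h2
      have q3 := hkey _ _ h3
      have n1 : S x → S x' → s x ≠ s x' := fun a b c => by
        have := hSinj _ _ a b c; subst this; omega
      have n2 : S y → S y' → s y ≠ s y' := fun a b c => by
        have := hSinj _ _ a b c; subst this; omega
      have kx' := hX x' hx'
      have ky' := hY y' hy'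
      rcases e with ⟨e1, e2, e3⟩ | ⟨e1, e2, e3⟩ | ⟨e1, e2, e3⟩ <;>
      rcases kx with ⟨k1, k2, k3⟩ | ⟨k1, k2, k3⟩ <;>
      rcases ky with ⟨k4, k5, k6⟩ | ⟨k4, k5, k6⟩ <;> first | contradiction | skip
      all_goals
        rcases kx' with ⟨j1, j2, j3⟩ | ⟨j1, j2, j3⟩ <;>
        rcases ky' with ⟨j4, j5, j6⟩ | ⟨j4, j5, j6⟩ <;>
        first
          | omega
          | (have := n1 k1 j1; omega)
          | (have := n2 k4 j4; omega)
          | (have := n1 k1 j1; have := n2 k4 j4; omega)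
  have hE' : ∀ a b, G.Adj a b → GoodEdge X lab a b ∨ GoodEdge X lab b a := by
    intro a b hab
    have e := hE a b hab
    by_cases ha : X a <;> by_cases hb : X b
    · exfalso
      have k1 := hX a ha
      have k2 := hX b hb
      rcases e with ⟨e1, e2, e3⟩ | ⟨e1, e2, e3⟩ | ⟨e1, e2, e3⟩ <;>
      rcases k1 with ⟨k1, k2', k3⟩ | ⟨k1, k2', k3⟩ <;>
      rcases k2 with ⟨k4, k5, k6⟩ | ⟨k4, k5, k6⟩ <;> first | contradiction | omega
    · exact Or.inl (hgood a b hab ha hb)
    · exact Or.inr (hgood b a hab.symm hb ha)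
    · exfalso
      have k1 := hY a ha
      have k2 := hY b hb
      rcases e with ⟨e1, e2, e3⟩ | ⟨e1, e2, e3⟩ | ⟨e1, e2, e3⟩ <;>
      rcases k1 with ⟨k1, k2', k3⟩ | ⟨k1, k2', k3⟩ <;>
      rcases k2 with ⟨k4, k5, k6⟩ | ⟨k4, k5, k6⟩ <;> first | contradiction | omega
  have hnb : ∀ w, ∃ w', G.Adj w w' := by
    intro w
    have : Nontrivial (Fin (l + 1)) := Fin.nontrivial_iff_two_le.mpr (by omega)
    exact hT.connected.preconnected.exists_adj_of_nontrivial w
  refine ⟨X, lab, hinj, hle, hsurj, hE', ?_, ?_, ?_⟩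
  · intro w hw
    obtain ⟨w', hw'⟩ := hnb w
    rcases hE' w w' hw' with h | h
    · exact h.1
    · have := h.2.2.1
      have := hle w'
      omega
  · intro w hw
    obtain ⟨w', hw'⟩ := hnb w
    rcases hE' w w' hw' with h | h
    · have := h.2.2.1
      omega
    · exact h.2.1
  · intro w hw hwl
    have hcompl : ∀ d, (Finset.univ.filter (fun z => ¬ G.dist u z ≤ d)).card + ball G u d
        = l + 1 := by
      intro d
      rw [ball_eq, add_comm, Finset.card_filter_add_card_filter_not]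
      simp
    rcases hX w hw with ⟨k1, k2, k3⟩ | ⟨k1, k2, k3⟩
    · obtain ⟨k, hk⟩ : ∃ k, s w = 2 * k := ⟨s w / 2, by omega⟩
      have hdw := (hdist w).1 k1
      have lo := hF' w ((Finset.univ.filter (fun z => G.dist u z ≤ 2 * k + 1)).erase w) (by
        intro z hz
        simp only [Finset.mem_erase, Finset.mem_filter, Finset.mem_univ, true_and] at hz
        have hne : S z → s z ≠ s w := fun h1 h2 => hz.1 (hSinj _ _ h1 k1 h2)
        rcases hall z with ⟨j1, j2, j3, j4⟩ | ⟨j1, j2, j3, j4⟩ | ⟨j1, j3, j4⟩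
        · have := hne j1; omega
        · omega
        · omega)
      rw [Finset.card_erase_of_mem (by simp; omega), ← ball_eq] at lo
      have hi := hF w (Finset.univ.filter (fun z => ¬ G.dist u z ≤ 2 * k + 1)) (by
        intro z hz
        simp only [Finset.mem_filter, Finset.mem_univ, true_and] at hz
        rcases hall z with ⟨j1, j2, j3, j4⟩ | ⟨j1, j2, j3, j4⟩ | ⟨j1, j3, j4⟩ <;> omega)
      have hc := hcompl (2 * k + 1)
      refine ⟨k, by omega, ?_⟩
      have hpos : 0 < (Finset.univ.filter (fun z => ¬ G.dist u z ≤ 2 * k + 1)).card := by omega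
      obtain ⟨z, hz⟩ := Finset.card_pos.mp hpos
      simp only [Finset.mem_filter, Finset.mem_univ, true_and] at hz
      obtain ⟨y, hy⟩ : ∃ y, G.dist u y = 2 * k + 2 := by
        by_cases h : 2 * k + 2 ≤ s z
        · obtain ⟨y, hy1, hy2⟩ := hp3 z _ h
          exact ⟨y, by rw [(hdist y).1 hy1, hy2]⟩
        · refine ⟨z, ?_⟩
          rcases hall z with ⟨j1, j2, j3, j4⟩ | ⟨j1, j2, j3, j4⟩ | ⟨j1, j3, j4⟩ <;> omega
      have hlt : ball G u (2 * k + 1) < ball G u (2 * k + 2) := by
        rw [ball_eq, ball_eq]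
        apply Finset.card_lt_card
        refine ⟨fun a ha => ?_, fun hsub => ?_⟩
        · simp only [Finset.mem_filter, Finset.mem_univ, true_and] at ha ⊢
          omega
        · have : y ∈ Finset.univ.filter (fun z => G.dist u z ≤ 2 * k + 1) :=
            hsub (by simp [hy])
          simp only [Finset.mem_filter, Finset.mem_univ, true_and] at this
          omega
      omega
    · obtain ⟨k, hk⟩ : ∃ k, s w = 2 * k + 1 := ⟨s w / 2, by omega⟩
      have lo := hF' w (Finset.univ.filter (fun z => G.dist u z ≤ 2 * k + 1)) (by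
        intro z hz
        simp only [Finset.mem_filter, Finset.mem_univ, true_and] at hz
        rcases hall z with ⟨j1, j2, j3, j4⟩ | ⟨j1, j2, j3, j4⟩ | ⟨j1, j3, j4⟩ <;> omega)
      rw [← ball_eq] at lo
      refine ⟨k, by omega, ?_⟩
      have hc := hcompl (2 * k + 2)
      by_cases hex : ∃ y, S y ∧ s y = 2 * k + 2
      · obtain ⟨y, hy1, hy2⟩ := hex
        have hdy := (hdist y).1 hy1
        have hi := hF w (insert y (Finset.univ.filter (fun z => ¬ G.dist u z ≤ 2 * k + 2))) (by
          intro z hz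
          simp only [Finset.mem_insert, Finset.mem_filter, Finset.mem_univ, true_and] at hz
          rcases hz with rfl | hz
          · rcases hall z with ⟨j1, j2, j3, j4⟩ | ⟨j1, j2, j3, j4⟩ | ⟨j1, j3, j4⟩
            · omega
            · omega
            · exact absurd hy1 j1
          · rcases hall z with ⟨j1, j2, j3, j4⟩ | ⟨j1, j2, j3, j4⟩ | ⟨j1, j3, j4⟩ <;> omega)
        rw [Finset.card_insert_of_notMem (by simp; omega)] at hi
        omega
      · have h0 : (Finset.univ.filter (fun z => ¬ G.dist u z ≤ 2 * k + 2)).card = 0 := by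
          rw [Finset.card_eq_zero, Finset.filter_eq_empty_iff]
          intro z _ hz
          by_cases h : 2 * k + 2 ≤ s z
          · exact hex (hp3 z _ h)
          · rcases hall z with ⟨j1, j2, j3, j4⟩ | ⟨j1, j2, j3, j4⟩ | ⟨j1, j3, j4⟩ <;> omega
        omega

end Pool.Agent.Lib.MP_12a5fd_co
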