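import Pool.Agent.Lib.MP_12a5fd_co.Shift
import Pool.Agent.Lib.MP_12a5fd_co.Label

/-! Packing into Ferrers-shaped bipartite hosts, one tree at a time. -/

namespace Pool.Agent.Lib.MP_12a5fd_co

open SimpleGraph

/-- The trees with index in `S` are packed into the bipartite graph joining row `α < m` to
column `π < N` when `π < r α`. -/
def Pack {n : ℕ} (T : ∀ i : Fin n, SimpleGraph (Fin (i.val + 1))) (m N : ℕ)
    (S : ℕ → Prop) (r : ℕ → ℕ) : Prop :=
  ∃ f : ∀ i : Fin n, Fin (i.val + 1) → ℕ ⊕ ℕ,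
    (∀ i : Fin n, S i.val → Function.Injective (f i)) ∧
    (∀ i : Fin n, S i.val → ∀ v α, f i v = Sum.inl α → α < m) ∧
    (∀ i : Fin n, S i.val → ∀ v π, f i v = Sum.inr π → π < N) ∧
    (∀ i : Fin n, S i.val → ∀ a b, (T i).Adj a b →
      (∃ α π, f i a = Sum.inl α ∧ f i b = Sum.inr π ∧ π < r α) ∨
      (∃ α π, f i b = Sum.inl α ∧ f i a = Sum.inr π ∧ π < r α)) ∧
    (∀ i j : Fin n, S i.val → S j.val → i ≠ j → ∀ a b c d, (T i).Adj a b → (T j).Adj c d →
      f i a = f j c → f i b = f j d → False)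

theorem Pack.step {n : ℕ} {T : ∀ i : Fin n, SimpleGraph (Fin (i.val + 1))} {m N : ℕ}
    {S S' : ℕ → Prop} {r r' : ℕ → ℕ} (h : Pack T m N S r) (k : Fin n)
    (hS' : ∀ i : Fin n, S' i.val → i = k ∨ S i.val)
    (ψ τ : ℕ → ℕ) (hψi : ∀ a b, a < m → b < m → ψ a = ψ b → a = b)
    (hτi : ∀ a b, a < N → b < N → τ a = τ b → a = b)
    (hψ : ∀ a, a < m → ψ a < m) (hτ : ∀ a, a < N → τ a < N)
    (h1 : ∀ α π, α < m → π < N → π < r α → τ π < r' (ψ α))
    (X : Fin (k.val + 1) → Prop) (gx gy : Fin (k.val + 1) → ℕ)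
    (hgx : ∀ a b, X a → X b → gx a = gx b → a = b)
    (hgy : ∀ a b, ¬ X a → ¬ X b → gy a = gy b → a = b)
    (hgxm : ∀ a, X a → gx a < m) (hgyN : ∀ a, ¬ X a → gy a < N)
    (hE : ∀ a b, (T k).Adj a b → (X a ∧ ¬ X b) ∨ (X b ∧ ¬ X a))
    (h2 : ∀ a b, (T k).Adj a b → X a → ¬ X b → gy b < r' (gx a) ∧
      ∀ α π, α < m → π < N → π < r α → ψ α = gx a → τ π = gy b → False) :
    Pack T m N S' r' := by
  classical
  obtain ⟨f, f1, f2, f3, f4, f5⟩ := h
  let g : Fin (k.val + 1) → ℕ ⊕ ℕ := fun v => if X v then Sum.inl (gx v) else Sum.inr (gy v)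
  let F : ∀ i : Fin n, Fin (i.val + 1) → ℕ ⊕ ℕ :=
    Function.update (fun i v => Sum.map ψ τ (f i v)) k g
  have Fk : F k = g := by simp [F]
  have Fi : ∀ i, i ≠ k → F i = fun v => Sum.map ψ τ (f i v) := by
    intro i hi; simp [F, Function.update_of_ne hi]
  have gX : ∀ v, X v → g v = Sum.inl (gx v) := fun v hv => by simp [g, hv]
  have gY : ∀ v, ¬ X v → g v = Sum.inr (gy v) := fun v hv => by simp [g, hv]
  have old : ∀ i : Fin n, S' i.val → i ≠ k → S i.val := fun i h1 h2 => (hS' i h1).resolve_left h2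
  have mapinj : ∀ i j : Fin n, S i.val → S j.val → ∀ a c,
      Sum.map ψ τ (f i a) = Sum.map ψ τ (f j c) → f i a = f j c := by
    intro i j hi hj a c hac
    rcases ha : f i a with α | π <;> rcases hc : f j c with α' | π' <;>
      simp only [ha, hc, Sum.map_inl, Sum.map_inr, Sum.inl.injEq, Sum.inr.injEq,
        reduceCtorEq] at hac ⊢
    · exact hψi _ _ (f2 i hi a α ha) (f2 j hj c α' hc) hac
    · exact hτi _ _ (f3 i hi a π ha) (f3 j hj c π' hc) hac
  have cross : ∀ j : Fin n, S j.val → ∀ a b c d, (T k).Adj a b → (T j).Adj c d →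
      g a = Sum.map ψ τ (f j c) → g b = Sum.map ψ τ (f j d) → False := by
    intro j hj a b c d hab hcd e1 e2
    rcases hE a b hab with ⟨xa, xb⟩ | ⟨xb, xa⟩
    · rw [gX a xa] at e1
      rw [gY b xb] at e2
      rcases f4 j hj c d hcd with ⟨α, π, q1, q2, q3⟩ | ⟨α, π, q1, q2, q3⟩
      · rw [q1] at e1; rw [q2] at e2
        simp only [Sum.map_inl, Sum.map_inr, Sum.inl.injEq, Sum.inr.injEq] at e1 e2
        exact (h2 a b hab xa xb).2 α π (f2 j hj c α q1) (f3 j hj d π q2) q3 e1.symm e2.symm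
      · rw [q2] at e1; simp at e1
    · rw [gY a xa] at e1
      rw [gX b xb] at e2
      rcases f4 j hj c d hcd with ⟨α, π, q1, q2, q3⟩ | ⟨α, π, q1, q2, q3⟩
      · rw [q1] at e1; simp at e1
      · rw [q2] at e1; rw [q1] at e2
        simp only [Sum.map_inl, Sum.map_inr, Sum.inl.injEq, Sum.inr.injEq] at e1 e2
        exact (h2 b a hab.symm xb xa).2 α π (f2 j hj d α q1) (f3 j hj c π q2) q3 e2.symm e1.symm
  refine ⟨F, ?_, ?_, ?_, ?_, ?_⟩
  · intro i hi
    by_cases hik : i = k
    · subst hik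
      rw [Fk]
      intro a b hab
      by_cases ha : X a <;> by_cases hb : X b
      · rw [gX a ha, gX b hb] at hab
        exact hgx a b ha hb (Sum.inl.inj hab)
      · rw [gX a ha, gY b hb] at hab; simp at hab
      · rw [gY a ha, gX b hb] at hab; simp at hab
      · rw [gY a ha, gY b hb] at hab
        exact hgy a b ha hb (Sum.inr.inj hab)
    · rw [Fi i hik]
      intro a b hab
      exact f1 i (old i hi hik) (mapinj i i (old i hi hik) (old i hi hik) a b hab)
  · intro i hi v α hv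
    by_cases hik : i = k
    · subst hik
      rw [Fk] at hv
      by_cases ha : X v
      · rw [gX v ha] at hv
        exact (Sum.inl.inj hv) ▸ hgxm v ha
      · rw [gY v ha] at hv; simp at hv
    · rw [Fi i hik] at hv
      rcases hf : f i v with β | π <;> simp only [hf, Sum.map_inl, Sum.map_inr, Sum.inl.injEq,
        reduceCtorEq] at hv
      exact hv ▸ hψ β (f2 i (old i hi hik) v β hf)
  · intro i hi v π hv
    by_cases hik : i = k
    · subst hik
      rw [Fk] at hv
      by_cases ha : X v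
      · rw [gX v ha] at hv; simp at hv
      · rw [gY v ha] at hv
        exact (Sum.inr.inj hv) ▸ hgyN v ha
    · rw [Fi i hik] at hv
      rcases hf : f i v with β | ρ <;> simp only [hf, Sum.map_inl, Sum.map_inr, Sum.inr.injEq,
        reduceCtorEq] at hv
      exact hv ▸ hτ ρ (f3 i (old i hi hik) v ρ hf)
  · intro i hi a b hab
    by_cases hik : i = k
    · subst hik
      rw [Fk]
      rcases hE a b hab with ⟨xa, xb⟩ | ⟨xb, xa⟩
      · exact Or.inl ⟨_, _, gX a xa, gY b xb, (h2 a b hab xa xb).1⟩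
      · exact Or.inr ⟨_, _, gX b xb, gY a xa, (h2 b a hab.symm xb xa).1⟩
    · rw [Fi i hik]
      have hi' := old i hi hik
      rcases f4 i hi' a b hab with ⟨α, π, q1, q2, q3⟩ | ⟨α, π, q1, q2, q3⟩
      · exact Or.inl ⟨ψ α, τ π, by simp [q1], by simp [q2],
          h1 α π (f2 i hi' a α q1) (f3 i hi' b π q2) q3⟩
      · exact Or.inr ⟨ψ α, τ π, by simp [q1], by simp [q2],
          h1 α π (f2 i hi' b α q1) (f3 i hi' a π q2) q3⟩
  · intro i j hi hj hij a b c d hab hcd e1 e2
    by_cases hik : i = k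
    · subst hik
      have hjk : j ≠ i := fun h => hij h.symm
      rw [Fk, Fi j hjk] at e1 e2
      exact cross j (old j hj hjk) a b c d hab hcd e1 e2
    · by_cases hjk : j = k
      · subst hjk
        rw [Fk, Fi i hik] at e1 e2
        exact cross i (old i hi hik) c d a b hcd hab e1.symm e2.symm
      · rw [Fi i hik, Fi j hjk] at e1 e2
        have hi' := old i hi hik
        have hj' := old j hj hjk
        exact f5 i j hi' hj' hij a b c d hab hcd (mapinj i j hi' hj' a c e1)
          (mapinj i j hi' hj' b d e2)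

/-- Data extracted from a good labelling: the colouring of `0..l` and the shift maps. -/
theorem Lab.shift {l : ℕ} {G : SimpleGraph (Fin (l + 1))} {R : Set ℕ} (h : Lab G R) :
    ∃ (X : Fin (l + 1) → Prop) (lab : Fin (l + 1) → ℕ) (σ τ : ℕ → ℕ),
      Function.Injective lab ∧ (∀ v, lab v ≤ l) ∧ (∀ v, X v → 1 ≤ lab v) ∧
      (∀ v, ¬ X v → lab v < l) ∧
      (∀ v, X v → lab v < l → lab v ∈ R) ∧
      (∀ a b, G.Adj a b → (X a ∧ ¬ X b) ∨ (X b ∧ ¬ X a)) ∧
      (∀ s s', s < l → s' < l → σ s = σ s' → s = s') ∧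
      (∀ s, s < l → 1 ≤ σ s ∧ σ s ≤ l ∧ (σ s = s ∨ σ s = l ∨ σ s ∈ R)) ∧
      (∀ π π', π < l → π' < l → τ π = τ π' → π = π') ∧
      (∀ π, π < l → τ π < l) ∧
      (∀ π s, π < s → s < l → τ π < σ s) ∧
      (∀ a b, G.Adj a b → X a → ¬ X b → lab b < lab a ∧
        ∀ π s, π < s → s < l → σ s = lab a → τ π = lab b → False) := by
  obtain ⟨X, lab, hinj, hle, hsurj, hE, hl, h0, hD⟩ := h
  let P : ℕ → Prop := fun s => ∃ v, X v ∧ lab v = s
  have hPl : P l := by
    obtain ⟨v, hv⟩ := hsurj l le_rfl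
    exact ⟨v, hl v hv, hv⟩
  have hP0 : ¬ P 0 := fun ⟨v, h1, h2⟩ => h0 v h2 h1
  obtain ⟨σ, τ, s1, s2, s3, s4, s5, s6⟩ := exists_shift l P hPl hP0
  refine ⟨X, lab, σ, τ, hinj, hle, ?_, ?_, hD, ?_, s1, ?_, s3, s4, s5, ?_⟩
  · intro v hv
    exact Nat.pos_of_ne_zero fun h => h0 v h hv
  · intro v hv
    exact lt_of_le_of_ne (hle v) fun h => hv (hl v h)
  · intro a b hab
    rcases hE a b hab with h | h
    · exact Or.inl ⟨h.1, h.2.1⟩
    · exact Or.inr ⟨h.1, h.2.1⟩
  · intro s hs
    obtain ⟨q1, q2, q3⟩ := s2 s hs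
    refine ⟨q1, q2, ?_⟩
    rcases q3 with q3 | ⟨v, hv1, hv2⟩
    · exact Or.inl q3
    · by_cases hvl : lab v < l
      · exact Or.inr (Or.inr (hv2 ▸ hD v hv1 hvl))
      · exact Or.inr (Or.inl (by omega))
  · intro a b hab ha hb
    have hg : GoodEdge X lab a b := by
      rcases hE a b hab with h | h
      · exact h
      · exact absurd h.1 hb
    refine ⟨hg.2.2.1, s6 (lab a) (lab b) ⟨a, ha, rfl⟩ ?_ ?_⟩
    · rintro ⟨v, hv1, hv2⟩
      exact hb (hinj hv2 ▸ hv1)
    · rintro x y ⟨x', hx1, rfl⟩ hy q1 q2 q3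
      obtain ⟨y', rfl⟩ := hsurj y (by have := hle a; omega)
      exact hg.2.2.2 x' y' hx1 (fun h => hy ⟨y', h, rfl⟩) q1 q2 q3

theorem Pack.mono {n : ℕ} {T : ∀ i : Fin n, SimpleGraph (Fin (i.val + 1))} {m N : ℕ}
    {S S' : ℕ → Prop} {r r' : ℕ → ℕ} (h : Pack T m N S r)
    (hS : ∀ i : Fin n, S' i.val → S i.val) (hr : ∀ α, α < m → r α ≤ r' α) :
    Pack T m N S' r' := by
  obtain ⟨f, f1, f2, f3, f4, f5⟩ := h
  refine ⟨f, fun i hi => f1 i (hS i hi), fun i hi => f2 i (hS i hi), fun i hi => f3 i (hS i hi),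
    fun i hi a b hab => ?_, fun i j hi hj => f5 i j (hS i hi) (hS j hj)⟩
  rcases f4 i (hS i hi) a b hab with ⟨α, π, q1, q2, q3⟩ | ⟨α, π, q1, q2, q3⟩
  · exact Or.inl ⟨α, π, q1, q2, q3.trans_le (hr α (f2 i (hS i hi) a α q1))⟩
  · exact Or.inr ⟨α, π, q1, q2, q3.trans_le (hr α (f2 i (hS i hi) b α q1))⟩

open Classical in
/-- Caterpillars whose cut points lie in `R` fill the rows of the half graph indexed by `R`. -/
theorem pack_class {n : ℕ} (T : ∀ i : Fin n, SimpleGraph (Fin (i.val + 1))) (N : ℕ)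
    (hN : n = N + 1) (R : Set ℕ) (C : ℕ → Prop)
    (hL : ∀ i : Fin n, 1 ≤ i.val → C i.val → i.val ∈ R ∧ Lab (T i) R) (l : ℕ) (hl : l ≤ N) :
    Pack T (N + 1) N (fun i => 1 ≤ i ∧ i ≤ l ∧ C i)
      (fun α => if α ≤ l ∧ α ∈ R then α else 0) := by
  induction l with
  | zero =>
    refine ⟨fun _ _ => Sum.inl 0, ?_, ?_, ?_, ?_, ?_⟩
    · intro i hi; omega
    · intro i hi; omega
    · intro i hi; omega
    · intro i hi; omega
    · intro i j hi; omega
  | succ l ih =>
    have ih' := ih (by omega)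
    let k : Fin n := ⟨l + 1, by omega⟩
    have hk : k.val = l + 1 := rfl
    by_cases hC : ¬ C (l + 1)
    · refine ih'.mono (fun i hi => ⟨hi.1, ?_, hi.2.2⟩) (fun α _ => ?_)
      · have : i.val ≠ l + 1 := fun h => hC (h ▸ hi.2.2)
        omega
      · split_ifs with h1 h2
        · exact le_rfl
        · exact absurd ⟨by omega, h1.2⟩ h2
        · omega
        · exact le_rfl
    rw [not_not] at hC
    have hkR : l + 1 ∈ R := (hL k (by omega) hC).1
    obtain ⟨X, lab, σ, τ, hinj, hle, hX1, hYl, hXR, hE, s1, s2, s3, s4, s5, s6⟩ :=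
      (hL k (by omega) hC).2.shift
    refine ih'.step k (fun i hi => ?_)
      (fun α => if α < l + 1 then σ α else if α = l + 1 then 0 else α)
      (fun π => if π < l + 1 then τ π else π) ?_ ?_ ?_ ?_ ?_ X lab lab
      (fun a b _ _ h => hinj h) (fun a b _ _ h => hinj h) ?_ ?_ hE ?_
    · by_cases h : i.val = l + 1
      · exact Or.inl (Fin.ext h)
      · exact Or.inr ⟨hi.1, by omega, hi.2.2⟩
    · intro a b _ _ hab
      by_cases ha : a < l + 1 <;> by_cases hb : b < l + 1
      · simp only [ha, hb, if_true] at hab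
        exact s1 a b ha hb hab
      · have := s2 a ha
        simp only [ha, hb, if_true, if_false] at hab
        split_ifs at hab <;> omega
      · have := s2 b hb
        simp only [ha, hb, if_true, if_false] at hab
        split_ifs at hab <;> omega
      · simp only [ha, hb, if_false] at hab
        split_ifs at hab <;> omega
    · intro a b _ _ hab
      by_cases ha : a < l + 1 <;> by_cases hb : b < l + 1
      · simp only [ha, hb, if_true] at hab
        exact s3 a b ha hb hab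
      · have := s4 a ha
        simp only [ha, hb, if_true, if_false] at hab
        omega
      · have := s4 b hb
        simp only [ha, hb, if_true, if_false] at hab
        omega
      · simpa only [ha, hb, if_false] using hab
    · intro a ha
      by_cases h : a < l + 1
      · have := s2 a h
        simp only [h, if_true]
        omega
      · simp only [h, if_false]
        split_ifs <;> omega
    · intro a ha
      by_cases h : a < l + 1
      · have := s4 a h
        simp only [h, if_true]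
        omega
      · simpa only [h, if_false] using ha
    · intro α π _ _ hπ
      have hα' : α ≤ l ∧ α ∈ R := by
        by_contra hc
        simp only [hc, if_false] at hπ
        omega
      rw [if_pos hα'] at hπ
      have hα := hα'.1
      have q1 : α < l + 1 := by omega
      have q2 : π < l + 1 := by omega
      have q3 := s2 α q1
      have q4 := s5 π α hπ q1
      have q5 : σ α ≤ l + 1 ∧ σ α ∈ R := by
        refine ⟨by omega, ?_⟩
        rcases q3.2.2 with h | h | h
        · rw [h]; exact hα'.2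
        · rw [h]; exact hkR
        · exact h
      simp only [q1, q2, if_true]
      rw [if_pos q5]
      exact q4
    · intro a _
      have := hle a
      omega
    · intro a ha
      have := hYl a ha
      omega
    · intro a b hab ha hb
      obtain ⟨q1, q2⟩ := s6 a b hab ha hb
      have q3 : lab a ≤ l + 1 ∧ lab a ∈ R := by
        refine ⟨hle a, ?_⟩
        by_cases h : lab a < l + 1
        · exact hXR a ha h
        · have h' : lab a = l + 1 := le_antisymm (hle a) (by omega)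
          rw [h']; exact hkR
      refine ⟨by rw [if_pos q3]; exact q1, fun α π _ _ hπ e1 e2 => ?_⟩
      have hα' : α ≤ l ∧ α ∈ R := by
        by_contra hc
        simp only [hc, if_false] at hπ
        omega
      rw [if_pos hα'] at hπ
      have hα := hα'.1
      have q4 : α < l + 1 := by omega
      have q5 : π < l + 1 := by omega
      simp only [q4, q5, if_true] at e1 e2
      exact q2 π α hπ q4 e1 e2

theorem Lab.mono {l : ℕ} {G : SimpleGraph (Fin (l + 1))} {R R' : Set ℕ} (h : Lab G R)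
    (hR : R ⊆ R') : Lab G R' := by
  obtain ⟨X, lab, h1, h2, h3, h4, h5, h6, h7⟩ := h
  exact ⟨X, lab, h1, h2, h3, h4, h5, h6, fun v a b => hR (h7 v a b)⟩

/-- Two half-graph packings, one from each end of the column order. -/
theorem pack_two {n : ℕ} (hn : 1 ≤ n) (T : ∀ i : Fin n, SimpleGraph (Fin (i.val + 1)))
    (hT : ∀ i, (T i).IsTree) (m : ℕ) (hm : 1 ≤ m) (R : Bool → Set ℕ) (t : Bool → ℕ → ℕ)
    (ht1 : ∀ b, Set.InjOn (t b) (R b)) (ht2 : ∀ b, ∀ l ∈ R b, t b l < m)
    (ht3 : ∀ l ∈ R true, ∀ l' ∈ R false, t true l = t false l' → l + l' ≤ n - 1)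
    (hL : ∀ i : Fin n, 1 ≤ i.val → ∃ b, i.val ∈ R b ∧ Lab (T i) (R b)) :
    ∃ f : ∀ i : Fin n, Fin (i.val + 1) → Fin m ⊕ Fin (n - 1),
        (∀ i, Function.Injective (f i)) ∧
        (∀ i a b, (T i).Adj a b →
          (completeBipartiteGraph (Fin m) (Fin (n - 1))).Adj (f i a) (f i b)) ∧
        (∀ i j, i ≠ j → ∀ a b c d, (T i).Adj a b → (T j).Adj c d →
          s(f i a, f i b) ≠ s(f j c, f j d)) := by
  classical
  set N := n - 1 with hN
  have hcl : ∀ i : ℕ, ∃ b : Bool, ∀ h : i < n, 1 ≤ i → i ∈ R b ∧ Lab (T ⟨i, h⟩) (R b) := by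
    intro i
    by_cases h : i < n ∧ 1 ≤ i
    · obtain ⟨b, hb⟩ := hL ⟨i, h.1⟩ h.2
      exact ⟨b, fun _ _ => hb⟩
    · exact ⟨true, fun h1 h2 => absurd ⟨h1, h2⟩ h⟩
  choose c hc using hcl
  have hP : ∀ b, Pack T (N + 1) N (fun i => 1 ≤ i ∧ i ≤ N ∧ c i = b)
      (fun α => if α ≤ N ∧ α ∈ R b then α else 0) := fun b =>
    pack_class T N (by omega) (R b) (fun i => c i = b)
      (fun i h1 h2 => h2 ▸ hc i.val i.isLt h1) N le_rfl
  choose f f1 f2 f3 f4 f5 using hP
  have hS : ∀ i : Fin n, 1 ≤ i.val → 1 ≤ i.val ∧ i.val ≤ N ∧ c i.val = c i.val :=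
    fun i h => ⟨h, by have := i.isLt; omega, rfl⟩
  -- edges
  have e4 : ∀ i : Fin n, ∀ a b, (T i).Adj a b →
      (∃ α π, f (c i) i a = Sum.inl α ∧ f (c i) i b = Sum.inr π ∧ π < α ∧ α ∈ R (c i)) ∨
      (∃ α π, f (c i) i b = Sum.inl α ∧ f (c i) i a = Sum.inr π ∧ π < α ∧ α ∈ R (c i)) := by
    intro i a b hab
    have hi : 1 ≤ i.val := by
      have ha := a.isLt
      have hb := b.isLt
      have : a.val ≠ b.val := fun h => hab.ne (Fin.ext h)
      omega
    rcases f4 (c i) i (hS i hi) a b hab with ⟨α, π, q1, q2, q3⟩ | ⟨α, π, q1, q2, q3⟩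
    · refine Or.inl ⟨α, π, q1, q2, ?_⟩
      dsimp only at q3
      split_ifs at q3 with h
      · exact ⟨q3, h.2⟩
      · omega
    · refine Or.inr ⟨α, π, q1, q2, ?_⟩
      dsimp only at q3
      split_ifs at q3 with h
      · exact ⟨q3, h.2⟩
      · omega
  have e2 : ∀ i : Fin n, 1 ≤ i.val → ∀ v α, f (c i) i v = Sum.inl α → α ∈ R (c i) := by
    intro i hi v α hv
    have : Nontrivial (Fin (i.val + 1)) := Fin.nontrivial_iff_two_le.mpr (by omega)
    obtain ⟨w, hw⟩ := (hT i).connected.preconnected.exists_adj_of_nontrivial v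
    rcases e4 i v w hw with ⟨β, π, q1, q2, q3, q4⟩ | ⟨β, π, q1, q2, q3, q4⟩
    · rw [hv] at q1
      exact (Sum.inl.inj q1) ▸ q4
    · rw [hv] at q2; simp at q2
  let ρ : Bool → ℕ → ℕ := fun b π => if b then π else N - 1 - π
  have hρ : ∀ b π π', π < N → π' < N → ρ b π = ρ b π' → π = π' := by
    intro b π π' h1 h2 h
    cases b <;> simp only [ρ, if_true, Bool.false_eq_true, if_false] at h <;> omega
  have hρN : ∀ b π, π < N → ρ b π < N := by
    intro b π h1
    cases b <;> simp only [ρ, if_true, Bool.false_eq_true, if_false] <;> omega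
  have hex : ∀ (i : Fin n) (v : Fin (i.val + 1)), ∃ z : Fin m ⊕ Fin N, 1 ≤ i.val →
      Sum.map Fin.val Fin.val z = Sum.map (t (c i)) (ρ (c i)) (f (c i) i v) := by
    intro i v
    by_cases hi : 1 ≤ i.val
    · rcases hf : f (c i) i v with α | π
      · exact ⟨Sum.inl ⟨_, ht2 _ _ (e2 i hi v α hf)⟩, fun _ => rfl⟩
      · exact ⟨Sum.inr ⟨_, hρN _ _ (f3 _ i (hS i hi) v π hf)⟩, fun _ => rfl⟩
    · exact ⟨Sum.inl ⟨0, hm⟩, fun h => absurd h hi⟩
  choose g hg using hex
  have hpos : ∀ (i : Fin n) a b, (T i).Adj a b → 1 ≤ i.val := by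
    intro i a b hab
    have ha := a.isLt
    have hb := b.isLt
    have : a.val ≠ b.val := fun h => hab.ne (Fin.ext h)
    omega
  have back : ∀ i j : Fin n, 1 ≤ i.val → 1 ≤ j.val → c i = c j → ∀ a d, g i a = g j d →
      f (c i) i a = f (c i) j d := by
    intro i j hi hj hij a d h
    have h1 := hg i a hi
    have h2 := hg j d hj
    rw [h, h2, ← hij] at h1
    rcases ha : f (c i) i a with α | π <;> rcases hd : f (c i) j d with α' | π' <;>
      simp only [ha, hd, Sum.map_inl, Sum.map_inr, Sum.inl.injEq, Sum.inr.injEq,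
        reduceCtorEq] at h1 ⊢
    · exact ht1 _ (e2 i hi a α ha) (hij ▸ e2 j hj d α' (hij ▸ hd)) h1.symm
    · exact hρ _ _ _ (f3 _ i (hS i hi) a π ha) (f3 _ j (hS j hj) d π' (hij ▸ hd)) h1.symm
  have disj : ∀ i j : Fin n, i ≠ j → ∀ a b c' d, (T i).Adj a b → (T j).Adj c' d →
      g i a = g j c' → g i b = g j d → False := by
    intro i j hij a b c' d hab hcd k1 k2
    have hi := hpos i a b hab
    have hj := hpos j c' d hcd
    by_cases hc' : c i = c j
    · exact f5 (c i) i j (hS i hi) ⟨hj, (hS j hj).2.1, hc'.symm⟩ hij a b c' d hab hcd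
        (back i j hi hj hc' a c' k1) (back i j hi hj hc' b d k2)
    · have h1 := hg i a hi
      have h2 := hg i b hi
      rw [k1, hg j c' hj] at h1
      rw [k2, hg j d hj] at h2
      have fin : ∀ α π α' π', π < α → α ∈ R (c i) → π' < α' → α' ∈ R (c j) → π < N → π' < N →
          t (c j) α' = t (c i) α → ρ (c j) π' = ρ (c i) π → False := by
        intro α π α' π' p1 p2 p3 p4 p5 p6 p7 p8
        rcases hci : c i with _ | _ <;> rcases hcj : c j with _ | _ <;>
          rw [hci, hcj] at hc' <;> rw [hci] at p2 <;> rw [hcj] at p4 <;>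
          rw [hci, hcj] at p7 p8
        · exact hc' rfl
        · have := ht3 _ p4 _ p2 p7
          simp only [ρ, if_true, Bool.false_eq_true, if_false] at p8
          omega
        · have := ht3 _ p2 _ p4 p7.symm
          simp only [ρ, if_true, Bool.false_eq_true, if_false] at p8
          omega
        · exact hc' rfl
      rcases e4 i a b hab with ⟨α, π, q1, q2, q3, q4⟩ | ⟨α, π, q1, q2, q3, q4⟩ <;>
      rcases e4 j c' d hcd with ⟨α', π', r1, r2, r3, r4⟩ | ⟨α', π', r1, r2, r3, r4⟩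
      · rw [q1, r1] at h1
        rw [q2, r2] at h2
        exact fin α π α' π' q3 q4 r3 r4 (f3 _ i (hS i hi) _ π q2) (f3 _ j (hS j hj) _ π' r2)
          (Sum.inl.inj h1) (Sum.inr.inj h2)
      · rw [q1, r2] at h1; simp at h1
      · rw [q2, r1] at h1; simp at h1
      · rw [q2, r2] at h1
        rw [q1, r1] at h2
        exact fin α π α' π' q3 q4 r3 r4 (f3 _ i (hS i hi) _ π q2) (f3 _ j (hS j hj) _ π' r2)
          (Sum.inl.inj h2) (Sum.inr.inj h1)
  refine ⟨g, ?_, ?_, ?_⟩
  · intro i a b hab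
    by_cases hi : 1 ≤ i.val
    · exact f1 _ i (hS i hi) (back i i hi hi rfl a b hab)
    · have ha := a.isLt
      have hb := b.isLt
      exact Fin.ext (by omega)
  · intro i a b hab
    have hi := hpos i a b hab
    have ha := hg i a hi
    have hb := hg i b hi
    have key : ∀ (z w : Fin m ⊕ Fin N) (α π : ℕ), Sum.map Fin.val Fin.val z = Sum.inl α →
        Sum.map Fin.val Fin.val w = Sum.inr π →
        (completeBipartiteGraph (Fin m) (Fin N)).Adj z w := by
      rintro (z | z) (w | w) α π e1 e2 <;> simp at e1 e2 ⊢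
    rcases e4 i a b hab with ⟨α, π, q1, q2, -⟩ | ⟨α, π, q1, q2, -⟩
    · rw [q1] at ha; rw [q2] at hb
      exact key _ _ _ _ ha hb
    · rw [q1] at hb; rw [q2] at ha
      exact (key _ _ _ _ hb ha).symm
  · intro i j hij a b c' d hab hcd he
    rw [Sym2.eq_iff] at he
    rcases he with ⟨e1, e2⟩ | ⟨e1, e2⟩
    · exact disj i j hij a b c' d hab hcd e1 e2
    · exact disj i j hij a b d c' hab hcd.symm e1 e2

end Pool.Agent.Lib.MP_12a5fd_co
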