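import Mathlib

/-! The two shift maps attached to a two-colouring of `0, …, l`. -/

namespace Pool.Agent.Lib.MP_12a5fd_co

open Classical in
theorem exists_shift (l : ℕ) (P : ℕ → Prop) (hl : P l) (h0 : ¬ P 0) :
    ∃ σ τ : ℕ → ℕ,
      (∀ s s', s < l → s' < l → σ s = σ s' → s = s') ∧
      (∀ s, s < l → 1 ≤ σ s ∧ σ s ≤ l ∧ (σ s = s ∨ P (σ s))) ∧
      (∀ π π', π < l → π' < l → τ π = τ π' → π = π') ∧
      (∀ π, π < l → τ π < l) ∧
      (∀ π s, π < s → s < l → τ π < σ s) ∧
      (∀ a b, P a → ¬ P b →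
        (∀ x y, P x → ¬ P y → b < y → y < x → x < a → False) →
        ∀ π s, π < s → s < l → σ s = a → τ π = b → False) := by
  -- next `P` point above `s`
  have hnx : ∀ s, s < l → ∃ t, s < t ∧ t ≤ l ∧ P t ∧ ∀ u, s < u → u < t → ¬ P u := by
    intro s hs
    have hex : ∃ t, s < t ∧ P t := ⟨l, hs, hl⟩
    refine ⟨Nat.find hex, (Nat.find_spec hex).1, Nat.find_min' hex ⟨hs, hl⟩,
      (Nat.find_spec hex).2, fun u h1 h2 h3 => Nat.find_min hex h2 ⟨h1, h3⟩⟩
  have hpv : ∀ t, 0 < t → ∃ s, s < t ∧ ¬ P s ∧ ∀ u, s < u → u < t → P u := by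
    intro t ht
    induction t with
    | zero => omega
    | succ k ih =>
      by_cases hk : P k
      · have hk0 : 0 < k := Nat.pos_of_ne_zero (by rintro rfl; exact h0 hk)
        obtain ⟨s, h1, h2, h3⟩ := ih hk0
        refine ⟨s, by omega, h2, fun u hu1 hu2 => ?_⟩
        by_cases huk : u = k
        · exact huk ▸ hk
        · exact h3 u hu1 (by omega)
      · exact ⟨k, by omega, hk, fun u h1 h2 => by omega⟩
  choose! nx hnx1 hnx2 hnx3 hnx4 using hnx
  choose! pv hpv1 hpv2 hpv3 using hpv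
  refine ⟨fun s => if s ≠ 0 ∧ ¬ P s then s else nx s,
    fun π => if π + 1 < l ∧ P (π + 1) then π + 1 else pv (π + 1), ?_, ?_, ?_, ?_, ?_, ?_⟩
  · intro s s' hs hs' h
    dsimp only at h
    split_ifs at h with h1 h2 h2
    · exact h
    · exact absurd (h ▸ hnx3 s' hs') h1.2
    · exact absurd (h ▸ hnx3 s hs) h2.2
    · by_contra hne
      rcases Nat.lt_or_gt_of_ne hne with hlt | hlt
      · have hP : P s' := by
          by_contra hP; exact h2 ⟨by omega, hP⟩
        exact hnx4 s hs s' hlt (h ▸ hnx1 s' hs') hP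
      · have hP : P s := by
          by_contra hP; exact h1 ⟨by omega, hP⟩
        exact hnx4 s' hs' s hlt (h ▸ hnx1 s hs) hP
  · intro s hs
    dsimp only
    split_ifs with h1
    · exact ⟨by omega, by omega, Or.inl rfl⟩
    · exact ⟨by have := hnx1 s hs; omega, hnx2 s hs, Or.inr (hnx3 s hs)⟩
  · intro π π' hπ hπ' h
    dsimp only at h
    split_ifs at h with h1 h2 h2
    · omega
    · exact absurd (h ▸ h1.2) (hpv2 _ (by omega))
    · exact absurd (h ▸ h2.2) (hpv2 _ (by omega))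
    · by_contra hne
      rcases Nat.lt_or_gt_of_ne hne with hlt | hlt
      · have hP : ¬ P (π + 1) := fun hP => h1 ⟨by omega, hP⟩
        exact hP (hpv3 (π' + 1) (by omega) (π + 1) (h ▸ hpv1 (π + 1) (by omega)) (by omega))
      · have hP : ¬ P (π' + 1) := fun hP => h2 ⟨by omega, hP⟩
        exact hP (hpv3 (π + 1) (by omega) (π' + 1) (h ▸ hpv1 (π' + 1) (by omega)) (by omega))
  · intro π hπ
    dsimp only
    split_ifs with h1
    · exact h1.1
    · have := hpv1 (π + 1) (by omega); omega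
  · intro π s hπ hs
    dsimp only
    have a1 := hpv1 (π + 1) (by omega)
    have a2 := hnx1 s hs
    split_ifs with h1 h2 h2
    · have : π + 1 ≠ s := fun h => h2.2 (h ▸ h1.2)
      omega
    · omega
    · omega
    · omega
  · intro a b ha hb hno π s hπ hs h1 h2
    dsimp only at h1 h2
    split_ifs at h1 h2 with c1 c2 c2
    · exact c1.2 (h1 ▸ ha)
    · exact c1.2 (h1 ▸ ha)
    · exact hb (h2 ▸ c2.2)
    · have hPs : P s := by
        by_contra hP; exact c1 ⟨by omega, hP⟩
      have hP1 : ¬ P (π + 1) := fun hP => c2 ⟨by omega, hP⟩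
      have hne : π + 1 ≠ s := fun h => hP1 (h ▸ hPs)
      exact hno s (π + 1) hPs hP1 (h2 ▸ hpv1 (π + 1) (by omega)) (by omega) (h1 ▸ hnx1 s hs)

end Pool.Agent.Lib.MP_12a5fd_co
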